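import Mathlib
import Pool.Agent.KS6_41.BW.Defs

/-!
# Real powers of the infinite Borwein product: formal power series and the recursion

The infinite product `∏ (1 - X ^ (3 k + 1)) (1 - X ^ (3 k + 2))` in `ℝ⟦X⟧` (product topology), its
real powers `exp (d log (⋯))`, and the proof that their coefficients are the numbers `c d n`.
(helper53)
-/

set_option autoImplicit false

namespace Pool.Agent.KS6_41.BW

open PowerSeries Filter
open scoped PowerSeries.WithPiTopology

/-- the factors of the Borwein product -/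
noncomputable def fac (k : ℕ) : PowerSeries ℝ :=
  (1 - (X : PowerSeries ℝ) ^ (3 * k + 1)) * (1 - X ^ (3 * k + 2))

/-- the infinite Borwein product as a formal power series -/
noncomputable def borwein : PowerSeries ℝ :=
  ∏' k : ℕ, (1 - (X : PowerSeries ℝ) ^ (3 * k + 1)) * (1 - X ^ (3 * k + 2))

/-- its real powers, `exp (d log (borwein))` -/
noncomputable def cpow (d : ℝ) : PowerSeries ℝ :=
  (PowerSeries.exp ℝ).subst (d • PowerSeries.logOf borwein)

/-! ### The product -/

theorem dvd_fac {n k : ℕ} (h : n ≤ k) : (X : PowerSeries ℝ) ^ n ∣ fac k - 1 := by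
  have h1 : (X : PowerSeries ℝ) ^ n ∣ X ^ (3 * k + 1) := pow_dvd_pow _ (by omega)
  have h2 : (X : PowerSeries ℝ) ^ n ∣ X ^ (3 * k + 2) := pow_dvd_pow _ (by omega)
  have e : fac k - 1 = X ^ (3 * k + 1) * (X ^ (3 * k + 2) - 1) - X ^ (3 * k + 2) := by
    unfold fac
    ring
  rw [e]
  exact dvd_sub (h1.mul_right _) h2

theorem dvd_prod {n : ℕ} (s : Finset ℕ) (h : ∀ k ∈ s, n ≤ k) :
    (X : PowerSeries ℝ) ^ n ∣ ∏ k ∈ s, fac k - 1 := by
  refine Finset.prod_induction fac (fun f => (X : PowerSeries ℝ) ^ n ∣ f - 1) ?_ ?_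
    (fun k hk => dvd_fac (h k hk))
  · intro f g hf hg
    have e : f * g - 1 = f * (g - 1) + (f - 1) := by ring
    rw [e]
    exact dvd_add (hg.mul_left _) hf
  · simp

theorem coeff_mul_of_dvd {n : ℕ} {f g : PowerSeries ℝ} (hg : (X : PowerSeries ℝ) ^ (n + 1) ∣ g - 1) :
    coeff n (f * g) = coeff n f := by
  obtain ⟨h, hh⟩ := hg
  have e : f * g = f + X ^ (n + 1) * (h * f) := by
    have : g = 1 + X ^ (n + 1) * h := by rw [← hh]; ring
    rw [this]
    ring
  rw [e, map_add]
  have h0 : coeff n ((X : PowerSeries ℝ) ^ (n + 1) * (h * f)) = 0 :=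
    (X_pow_dvd_iff.1 (Dvd.intro _ rfl)) n (Nat.lt_succ_self n)
  rw [h0, add_zero]

theorem coeff_prod_superset {n : ℕ} {s : Finset ℕ} (hs : Finset.range (n + 1) ⊆ s) :
    coeff n (∏ k ∈ s, fac k) = coeff n (∏ k ∈ Finset.range (n + 1), fac k) := by
  rw [← Finset.prod_sdiff hs, mul_comm]
  refine coeff_mul_of_dvd (dvd_prod _ fun k hk => ?_)
  rw [Finset.mem_sdiff, Finset.mem_range] at hk
  omega

theorem hasProd_fac :
    HasProd fac (PowerSeries.mk fun n => coeff n (∏ k ∈ Finset.range (n + 1), fac k)) := by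
  rw [HasProd, SummationFilter.unconditional_filter, WithPiTopology.tendsto_iff_coeff_tendsto]
  intro n
  apply tendsto_nhds_of_eventually_eq
  filter_upwards [eventually_ge_atTop (Finset.range (n + 1))] with s hs
  rw [coeff_prod_superset hs, coeff_mk]

theorem hasProd_borwein :
    HasProd (fun k : ℕ => (1 - (X : PowerSeries ℝ) ^ (3 * k + 1)) * (1 - X ^ (3 * k + 2)))
      borwein :=
  hasProd_fac.multipliable.hasProd

theorem borwein_eq :
    borwein = PowerSeries.mk fun n => coeff n (∏ k ∈ Finset.range (n + 1), fac k) :=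
  hasProd_fac.tprod_eq

/-- the coefficients of the infinite product are those of the finite products -/
theorem borwein_coeff (n : ℕ) {N : ℕ} (h : n < N) :
    coeff n borwein = coeff n (∏ k ∈ Finset.range N,
      (1 - (X : PowerSeries ℝ) ^ (3 * k + 1)) * (1 - X ^ (3 * k + 2))) := by
  rw [borwein_eq, coeff_mk]
  exact (coeff_prod_superset (Finset.range_subset_range.2 h)).symm

/-! ### The logarithmic derivative -/

/-- `∑_{j ≥ 1} a X ^ (a j)` -/
noncomputable def Ea (a : ℕ) : PowerSeries ℝ :=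
  PowerSeries.mk fun n => if a ∣ n ∧ n ≠ 0 then (a : ℝ) else 0

theorem Ea_mul {a : ℕ} (ha : 0 < a) : Ea a * (1 - X ^ a) = (a : ℝ) • (X : PowerSeries ℝ) ^ a := by
  ext n
  rw [mul_sub, mul_one, map_sub, coeff_mul_X_pow', coeff_smul, coeff_X_pow]
  unfold Ea
  rw [coeff_mk, coeff_mk]
  by_cases h : a ≤ n
  · obtain ⟨m, rfl⟩ := Nat.exists_eq_add_of_le h
    have h1 : (a ∣ a + m ∧ a + m ≠ 0) ↔ a ∣ m := by
      constructor
      · rintro ⟨h2, -⟩
        exact (Nat.dvd_add_right (dvd_refl a)).1 h2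
      · intro h2
        exact ⟨(Nat.dvd_add_right (dvd_refl a)).2 h2, by omega⟩
    have h2 : a + m - a = m := by omega
    rw [if_pos h, h2]
    by_cases hm : m = 0
    · subst hm
      simp [ha.ne']
    · have h3 : a + m ≠ a := by omega
      rw [if_neg h3]
      by_cases h4 : a ∣ m
      · rw [if_pos (h1.2 h4), if_pos ⟨h4, hm⟩]
        simp
      · rw [if_neg (fun h5 => h4 (h1.1 h5)), if_neg (fun h5 => h4 h5.1)]
        simp
  · have h3 : n ≠ a := by omega
    rw [if_neg h, if_neg h3]
    by_cases hn : n = 0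
    · subst hn
      simp
    · rw [if_neg]
      · simp
      · rintro ⟨h4, -⟩
        exact h (Nat.le_of_dvd (Nat.pos_of_ne_zero hn) h4)

theorem deriv_one_sub {a : ℕ} (ha : 0 < a) :
    X * d⁄dX ℝ (1 - (X : PowerSeries ℝ) ^ a) = -(Ea a * (1 - X ^ a)) := by
  rw [Ea_mul ha]
  obtain ⟨b, rfl⟩ : ∃ b, a = b + 1 := ⟨a - 1, by omega⟩
  rw [map_sub, Derivation.leibniz_pow]
  simp only [Derivation.map_one_eq_zero, Nat.add_sub_cancel, derivative_X]
  rw [smul_eq_mul, mul_one, zero_sub, nsmul_eq_mul, Algebra.smul_def]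
  rw [pow_succ]
  simp only [Nat.cast_add, Nat.cast_one, map_add, map_natCast, map_one]
  ring

theorem deriv_fac (k : ℕ) :
    X * d⁄dX ℝ (fac k) = -((Ea (3 * k + 1) + Ea (3 * k + 2)) * fac k) := by
  have h1 := deriv_one_sub (a := 3 * k + 1) (by omega)
  have h2 := deriv_one_sub (a := 3 * k + 2) (by omega)
  unfold fac
  rw [Derivation.leibniz, smul_eq_mul, smul_eq_mul]
  linear_combination (1 - (X : PowerSeries ℝ) ^ (3 * k + 1)) * h2 +
    (1 - (X : PowerSeries ℝ) ^ (3 * k + 2)) * h1

theorem deriv_prod (N : ℕ) :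
    X * d⁄dX ℝ (∏ k ∈ Finset.range N, fac k) =
      -((∑ k ∈ Finset.range N, (Ea (3 * k + 1) + Ea (3 * k + 2))) *
        ∏ k ∈ Finset.range N, fac k) := by
  induction N with
  | zero => simp
  | succ N ih =>
    rw [Finset.prod_range_succ, Finset.sum_range_succ, Derivation.leibniz, smul_eq_mul,
      smul_eq_mul]
    linear_combination (fac N) * ih + (∏ k ∈ Finset.range N, fac k) * deriv_fac N

/-- the generating series of `sg` -/
noncomputable def Sg : PowerSeries ℝ := PowerSeries.mk fun n => (sg n : ℝ)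

theorem sum_range_three (f : ℕ → ℝ) (N : ℕ) :
    ∑ a ∈ Finset.range (3 * N), f a =
      ∑ k ∈ Finset.range N, (f (3 * k) + f (3 * k + 1) + f (3 * k + 2)) := by
  induction N with
  | zero => simp
  | succ N ih =>
    rw [show 3 * (N + 1) = 3 * N + 1 + 1 + 1 by ring, Finset.sum_range_succ,
      Finset.sum_range_succ, Finset.sum_range_succ, ih, Finset.sum_range_succ]
    ring

theorem sg_eq_sum {n N : ℕ} (h : n < N) :
    coeff n (∑ k ∈ Finset.range N, (Ea (3 * k + 1) + Ea (3 * k + 2))) = (sg n : ℝ) := by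
  rw [map_sum]
  by_cases hn : n = 0
  · subst hn
    simp [Ea, sg]
  have e1 : ∀ k, coeff n (Ea (3 * k + 1) + Ea (3 * k + 2)) =
      (fun a : ℕ => if a ∣ n ∧ ¬ 3 ∣ a then (a : ℝ) else 0) (3 * k) +
      (fun a : ℕ => if a ∣ n ∧ ¬ 3 ∣ a then (a : ℝ) else 0) (3 * k + 1) +
      (fun a : ℕ => if a ∣ n ∧ ¬ 3 ∣ a then (a : ℝ) else 0) (3 * k + 2) := by
    intro k
    have h0 : ¬ ¬ 3 ∣ 3 * k := by simp
    have h1 : ¬ 3 ∣ 3 * k + 1 := by omega
    have h2 : ¬ 3 ∣ 3 * k + 2 := by omega
    simp only [Ea, map_add, coeff_mk, h0, h1, h2, hn, and_false, if_false, not_false_eq_true,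
      and_true, zero_add, ne_eq]
  rw [Finset.sum_congr rfl fun k _ => e1 k,
    ← sum_range_three (fun a : ℕ => if a ∣ n ∧ ¬ 3 ∣ a then (a : ℝ) else 0)]
  unfold sg
  rw [Nat.cast_sum, ← Finset.sum_filter]
  refine (Finset.sum_congr ?_ fun _ _ => rfl).symm
  ext a
  simp only [Finset.mem_filter, Nat.mem_divisors, Finset.mem_range]
  constructor
  · rintro ⟨⟨h1, h2⟩, h3⟩
    have := Nat.le_of_dvd (Nat.pos_of_ne_zero hn) h1
    exact ⟨by omega, h1, h3⟩
  · rintro ⟨h1, h2, h3⟩
    exact ⟨⟨h2, hn⟩, h3⟩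

theorem deriv_borwein : X * d⁄dX ℝ borwein = -(Sg * borwein) := by
  ext n
  have key : ∀ m, m ≤ n → coeff m borwein = coeff m (∏ k ∈ Finset.range (n + 1), fac k) :=
    fun m hm => borwein_coeff m (by omega)
  have h := congrArg (coeff n) (deriv_prod (n + 1))
  have e1 : coeff n (X * d⁄dX ℝ borwein) =
      coeff n (X * d⁄dX ℝ (∏ k ∈ Finset.range (n + 1), fac k)) := by
    cases n with
    | zero => simp
    | succ n =>
      rw [coeff_succ_X_mul, coeff_succ_X_mul, coeff_derivative, coeff_derivative,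
        key (n + 1) le_rfl]
  rw [e1, h, map_neg, map_neg, coeff_mul, coeff_mul]
  congr 1
  refine Finset.sum_congr rfl fun p hp => ?_
  have hp := Finset.HasAntidiagonal.mem_antidiagonal.1 hp
  rw [sg_eq_sum (by omega), ← key p.2 (by omega)]
  unfold Sg
  rw [coeff_mk]

/-! ### The powers -/

theorem constantCoeff_borwein : constantCoeff borwein = 1 := by
  rw [← coeff_zero_eq_constantCoeff_apply, borwein_coeff 0 (N := 1) (by omega)]
  simp

theorem deriv_logOf {f : PowerSeries ℝ} (hf : constantCoeff f = 1) :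
    d⁄dX ℝ (logOf f) * f = d⁄dX ℝ f := by
  have hs : HasSubst (f - 1) := by
    apply HasSubst.of_constantCoeff_zero'
    rw [map_sub, map_one, hf, sub_self]
  rw [logOf_eq, derivative_subst hs]
  have h1 : d⁄dX ℝ (log ℝ) * (1 + X) = 1 := by
    rw [deriv_log]
    ext n
    rw [mul_add, mul_one, map_add, coeff_one]
    cases n with
    | zero => simp
    | succ n =>
      rw [coeff_succ_mul_X, coeff_mk, coeff_mk, pow_succ]
      simp
  have h2 : (d⁄dX ℝ (log ℝ)).subst (f - 1) * f = 1 := by
    have h3 : (d⁄dX ℝ (log ℝ) * (1 + X)).subst (f - 1) = (1 : PowerSeries ℝ).subst (f - 1) :=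
      congrArg (fun g : PowerSeries ℝ => g.subst (f - 1)) h1
    rw [← coe_substAlgHom hs, map_mul, map_add, map_one, coe_substAlgHom hs, subst_X hs] at h3
    have e : 1 + (f - 1) = f := by ring
    rw [e] at h3
    exact h3
  rw [map_sub, Derivation.map_one_eq_zero, sub_zero]
  linear_combination (d⁄dX ℝ f) * h2

theorem deriv_cpow (d : ℝ) : X * d⁄dX ℝ (cpow d) = -(d • (Sg * cpow d)) := by
  have h0 : constantCoeff (d • logOf borwein) = 0 := by
    rw [← coeff_zero_eq_constantCoeff_apply, coeff_smul, coeff_zero_eq_constantCoeff_apply,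
      constantCoeff_logOf constantCoeff_borwein, smul_zero]
  have hs : HasSubst (d • logOf borwein) := HasSubst.of_constantCoeff_zero' h0
  have h1 : d⁄dX ℝ (cpow d) = cpow d * (d • d⁄dX ℝ (logOf borwein)) := by
    unfold cpow
    rw [derivative_subst hs, derivative_exp, Derivation.map_smul]
  have h2 := deriv_logOf constantCoeff_borwein
  have h3 := deriv_borwein
  have hne : borwein ≠ 0 := by
    intro h
    have := constantCoeff_borwein
    rw [h, map_zero] at this
    exact zero_ne_one this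
  apply mul_right_cancel₀ hne
  rw [h1]
  simp only [Algebra.smul_def]
  linear_combination (X * cpow d * (algebraMap ℝ (PowerSeries ℝ)) d) * h2 +
    (cpow d * (algebraMap ℝ (PowerSeries ℝ)) d) * h3

theorem constantCoeff_cpow (d : ℝ) : constantCoeff (cpow d) = 1 := by
  have h0 : constantCoeff (d • logOf borwein) = 0 := by
    rw [← coeff_zero_eq_constantCoeff_apply, coeff_smul, coeff_zero_eq_constantCoeff_apply,
      constantCoeff_logOf constantCoeff_borwein, smul_zero]
  have hs : HasSubst (d • logOf borwein) := HasSubst.of_constantCoeff_zero' h0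
  unfold cpow
  have e : exp ℝ = 1 + (exp ℝ - 1) := by ring
  have h1 : constantCoeff (exp ℝ - 1) = 0 := by simp
  rw [e, ← coe_substAlgHom hs, map_add, map_one, coe_substAlgHom hs, map_add, map_one]
  have h2 : constantCoeff ((exp ℝ - 1).subst (d • logOf borwein)) = 0 :=
    constantCoeff_subst_eq_zero h0 _ h1
  rw [h2, add_zero]

/-- **The coefficients of the real powers of the Borwein product are the numbers `c d n`.** -/
theorem coeff_cpow (d : ℝ) (n : ℕ) : coeff n (cpow d) = c d n := by
  induction n using Nat.strong_induction_on with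
  | _ n ih =>
    cases n with
    | zero =>
      rw [coeff_zero_eq_constantCoeff_apply, constantCoeff_cpow]
      unfold c
      rfl
    | succ n =>
      have h := congrArg (coeff (n + 1)) (deriv_cpow d)
      rw [coeff_succ_X_mul, coeff_derivative, map_neg, coeff_smul, coeff_mul,
        Finset.Nat.sum_antidiagonal_eq_sum_range_succ
          (fun i j => coeff i Sg * coeff j (cpow d)), Finset.sum_range_succ'] at h
      have e0 : coeff 0 Sg = 0 := by
        unfold Sg
        rw [coeff_mk]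
        simp [sg]
      rw [e0, zero_mul, add_zero] at h
      have e1 : ∑ k ∈ Finset.range (n + 1), coeff (k + 1) Sg * coeff (n + 1 - (k + 1)) (cpow d) =
          ∑ k : Fin (n + 1), (sg ((k : ℕ) + 1) : ℝ) * c d (n - k) := by
        rw [Finset.sum_range]
        refine Finset.sum_congr rfl fun k _ => ?_
        have h1 : n + 1 - ((k : ℕ) + 1) = n - k := by omega
        rw [h1, ih (n - k) (by omega)]
        unfold Sg
        rw [coeff_mk]
      rw [e1] at h
      have hn : (n : ℝ) + 1 ≠ 0 := by positivity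
      unfold c
      rw [← smul_eq_mul (a := -d / ((n : ℝ) + 1))]
      field_simp
      simp only [smul_eq_mul] at h ⊢
      field_simp
      linarith

end Pool.Agent.KS6_41.BW
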