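import Pool.Agent.KS6_41.BW.Arc

/-!
# The lower bound for the arc integral
-/

set_option autoImplicit false

namespace Pool.Agent.KS6_41.BW

open MeasureTheory Set Filter Topology
open scoped Real Interval

lemma tail_le {b : ℝ} (hb : 0 < b) :
    ∫ x in Ioi (1 : ℝ), Real.exp (-b * x ^ 2) ≤ Real.exp (-b) / (2 * b) := by
  have hd : ∀ x ∈ Ici (1 : ℝ), HasDerivAt (fun y : ℝ => -(Real.exp (-b * y ^ 2) / (2 * b)))
      (x * Real.exp (-b * x ^ 2)) x := by
    intro x _
    have h1 : HasDerivAt (fun y : ℝ => -b * y ^ 2) (-b * (2 * x)) x := by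
      simpa using (hasDerivAt_pow 2 x).const_mul (-b)
    have h2 := (h1.exp.div_const (2 * b)).neg
    refine h2.congr_deriv ?_
    field_simp
  have ht : Tendsto (fun y : ℝ => -(Real.exp (-b * y ^ 2) / (2 * b))) atTop (𝓝 0) := by
    have h1 : Tendsto (fun y : ℝ => -b * y ^ 2) atTop atBot :=
      (tendsto_pow_atTop (two_ne_zero)).const_mul_atTop_of_neg (by linarith)
    have h2 := ((Real.tendsto_exp_atBot.comp h1).div_const (2 * b)).neg
    simpa using h2
  have hi : IntegrableOn (fun x : ℝ => x * Real.exp (-b * x ^ 2)) (Ioi 1) :=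
    (integrable_mul_exp_neg_mul_sq hb).integrableOn
  have h3 := integral_Ioi_of_hasDerivAt_of_tendsto' hd hi ht
  have h4 : ∫ x in Ioi (1 : ℝ), x * Real.exp (-b * x ^ 2) = Real.exp (-b) / (2 * b) := by
    rw [h3]
    simp
  rw [← h4]
  refine setIntegral_mono_on (integrable_exp_neg_mul_sq hb).integrableOn hi measurableSet_Ioi ?_
  intro x hx
  have hx' : (1 : ℝ) < x := hx
  have := Real.exp_pos (-b * x ^ 2)
  nlinarith

lemma gauss_ge {b : ℝ} (hb : 0 < b) :
    √(π / b) - Real.exp (-b) / b ≤ ∫ x in (-1 : ℝ)..1, Real.exp (-b * x ^ 2) := by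
  have hc : Continuous fun x : ℝ => Real.exp (-b * x ^ 2) := by fun_prop
  have h1 : ∫ x in (-1 : ℝ)..1, Real.exp (-b * x ^ 2) =
      2 * ∫ x in (0 : ℝ)..1, Real.exp (-b * x ^ 2) := by
    rw [← intervalIntegral.integral_add_adjacent_intervals (b := 0) (hc.intervalIntegrable _ _)
      (hc.intervalIntegrable _ _)]
    have h2 := intervalIntegral.integral_comp_neg (a := 0) (b := 1)
      (fun x : ℝ => Real.exp (-b * x ^ 2))
    simp only [neg_sq, neg_zero] at h2
    rw [← h2]
    ring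
  have h2 := intervalIntegral.integral_interval_add_Ioi (a := (0 : ℝ)) (b := 1) (μ := volume)
    (f := fun x : ℝ => Real.exp (-b * x ^ 2)) (integrable_exp_neg_mul_sq hb).integrableOn
    (integrable_exp_neg_mul_sq hb).integrableOn
  rw [integral_gaussian_Ioi] at h2
  have h3 := tail_le hb
  rw [h1]
  have h4 : Real.exp (-b) / b = 2 * (Real.exp (-b) / (2 * b)) := by field_simp
  rw [h4]
  linarith

lemma sq_int {b : ℝ} : ∫ x in (-1 : ℝ)..1, (1 - 2 * b * x ^ 2) * Real.exp (-b * x ^ 2) =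
    2 * Real.exp (-b) := by
  have hd : ∀ x : ℝ, HasDerivAt (fun y : ℝ => y * Real.exp (-b * y ^ 2))
      ((1 - 2 * b * x ^ 2) * Real.exp (-b * x ^ 2)) x := by
    intro x
    have h1 : HasDerivAt (fun y : ℝ => -b * y ^ 2) (-b * (2 * x)) x := by
      simpa using (hasDerivAt_pow 2 x).const_mul (-b)
    have h2 := (hasDerivAt_id x).mul h1.exp
    refine h2.congr_deriv ?_
    simp only [id]
    ring
  have hc : Continuous fun x : ℝ => (1 - 2 * b * x ^ 2) * Real.exp (-b * x ^ 2) := by fun_prop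
  rw [intervalIntegral.integral_eq_sub_of_hasDerivAt (fun x _ => hd x) (hc.intervalIntegrable _ _)]
  norm_num
  ring

theorem Iarc_ge_aux {X : ℝ} (hX : 1 ≤ X) :
    Real.exp X * ((1 - 1 / (2 * X)) * √(2 * π / X) - Real.exp (-(X / 2)) / X) ≤ Iarc X := by
  have hX0 : 0 < X := by linarith
  have hpi : (1 : ℝ) ≤ π / 3 := by linarith [Real.pi_gt_three]
  have hc : Continuous fun θ : ℝ => Real.cos θ * Real.exp (X * Real.cos θ) := by fun_prop
  -- restriction to [-1, 1]
  have h1 : ∫ θ in (-1 : ℝ)..1, Real.cos θ * Real.exp (X * Real.cos θ) ≤ Iarc X := by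
    refine intervalIntegral.integral_mono_interval (by linarith) (by norm_num) hpi ?_
      (hc.intervalIntegrable _ _)
    refine (ae_restrict_iff' measurableSet_Ioc).2 (Eventually.of_forall fun θ hθ => ?_)
    have h2 := cos_ge_half (abs_le.2 ⟨hθ.1.le, hθ.2⟩)
    show 0 ≤ Real.cos θ * Real.exp (X * Real.cos θ)
    have := Real.exp_pos (X * Real.cos θ)
    have h3 : 0 ≤ Real.cos θ := by linarith
    positivity
  refine le_trans ?_ h1
  have h2 : ∫ θ in (-1 : ℝ)..1, Real.exp X * ((1 - θ ^ 2 / 2) * Real.exp (-(X / 2) * θ ^ 2)) ≤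
      ∫ θ in (-1 : ℝ)..1, Real.cos θ * Real.exp (X * Real.cos θ) := by
    refine intervalIntegral.integral_mono_on (by norm_num)
      (Continuous.intervalIntegrable (by fun_prop) _ _) (hc.intervalIntegrable _ _) ?_
    intro θ hθ
    have h3 := Real.one_sub_sq_div_two_le_cos (x := θ)
    have h4 : (0 : ℝ) ≤ 1 - θ ^ 2 / 2 := by
      have : θ ^ 2 ≤ 1 := by
        have := sq_le_sq' hθ.1 hθ.2
        linarith
      linarith
    have h5 : Real.exp X * ((1 - θ ^ 2 / 2) * Real.exp (-(X / 2) * θ ^ 2)) =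
        (1 - θ ^ 2 / 2) * Real.exp (X * (1 - θ ^ 2 / 2)) := by
      rw [mul_left_comm, ← Real.exp_add]
      congr 2
      ring
    rw [h5]
    exact mul_le_mul h3 (Real.exp_le_exp.2 (mul_le_mul_of_nonneg_left h3 hX0.le))
      (Real.exp_pos _).le (by linarith)
  refine le_trans ?_ h2
  rw [intervalIntegral.integral_const_mul]
  refine mul_le_mul_of_nonneg_left ?_ (Real.exp_pos _).le
  have h6 : ∀ θ : ℝ, (1 - θ ^ 2 / 2) * Real.exp (-(X / 2) * θ ^ 2) =
      (1 - 1 / (2 * X)) * Real.exp (-(X / 2) * θ ^ 2) +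
        1 / (2 * X) * ((1 - 2 * (X / 2) * θ ^ 2) * Real.exp (-(X / 2) * θ ^ 2)) := by
    intro θ
    field_simp
    ring
  rw [intervalIntegral.integral_congr (fun θ _ => h6 θ), intervalIntegral.integral_add
    (Continuous.intervalIntegrable (by fun_prop) _ _)
    (Continuous.intervalIntegrable (by fun_prop) _ _), intervalIntegral.integral_const_mul,
    intervalIntegral.integral_const_mul, sq_int]
  have h7 := gauss_ge (b := X / 2) (by positivity)
  have h8 : π / (X / 2) = 2 * π / X := by field_simp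
  rw [h8] at h7
  have h9 : 0 ≤ 1 - 1 / (2 * X) := by
    have : 1 / (2 * X) ≤ 1 := by rw [div_le_one (by positivity)]; linarith
    linarith
  have h10 := mul_le_mul_of_nonneg_left h7 h9
  have h11 : Real.exp (-(X / 2)) / (X / 2) = 2 * (Real.exp (-(X / 2)) / X) := by
    field_simp
  rw [h11] at h10
  have h12 : 0 < Real.exp (-(X / 2)) / X := by positivity
  have h13 : 1 / (2 * X) * (2 * Real.exp (-(X / 2))) = Real.exp (-(X / 2)) / X := by
    field_simp
  rw [h13]
  have h14 : 0 < 1 / (2 * X) := by positivity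
  nlinarith [mul_pos h14 h12]

theorem Iarc_ge {X : ℝ} (hX : 9 ≤ X) : 2.36 / √X * Real.exp X ≤ Iarc X := by
  have hX0 : 0 < X := by linarith
  refine le_trans ?_ (Iarc_ge_aux (by linarith))
  rw [mul_comm]
  refine mul_le_mul_of_nonneg_left ?_ (Real.exp_pos _).le
  have hs : 0 < √X := Real.sqrt_pos.2 hX0
  rw [Real.sqrt_div (by positivity)]
  have h1 : (2.506 : ℝ) ≤ √(2 * π) := by
    apply Real.le_sqrt_of_sq_le
    nlinarith [Real.pi_gt_d4]
  have h3 : (3 : ℝ) ≤ √X := by
    apply Real.le_sqrt_of_sq_le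
    linarith
  have h4 : Real.exp (-(X / 2)) / X ≤ 0.005 / √X := by
    have e : X = √X * √X := (Real.mul_self_sqrt hX0.le).symm
    rw [div_le_div_iff₀ hX0 hs]
    have h5 : Real.exp (-(X / 2)) ≤ 0.015 := by
      have h6 : Real.exp (-(X / 2)) ≤ Real.exp (-(4.5)) := Real.exp_le_exp.2 (by linarith)
      have h7 : Real.exp (-(4.5 : ℝ)) ≤ 0.015 := by
        rw [Real.exp_neg, inv_le_comm₀ (Real.exp_pos _) (by norm_num)]
        have h8 : (2.7 : ℝ) ≤ Real.exp 1 := by linarith [Real.exp_one_gt_d9]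
        have h9 : Real.exp 4.5 = (Real.exp 1) ^ 4 * Real.exp 0.5 := by
          rw [← Real.exp_nat_mul, ← Real.exp_add]
          norm_num
        have h10 : (1.5 : ℝ) ≤ Real.exp 0.5 := by linarith [Real.add_one_le_exp (0.5 : ℝ)]
        rw [h9]
        have h11 : (2.7 : ℝ) ^ 4 ≤ Real.exp 1 ^ 4 := pow_le_pow_left₀ (by norm_num) h8 4
        nlinarith
      linarith
    have h6 : Real.exp (-(X / 2)) * √X ≤ 0.015 * √X := by
      exact mul_le_mul_of_nonneg_right h5 hs.le
    have h7 : 0.015 * √X ≤ 0.005 * X := by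
      nlinarith
    linarith
  have h5 : 1 / (2 * X) ≤ 1 / 18 := by
    apply one_div_le_one_div_of_le (by norm_num)
    linarith
  have h6 : (17 / 18 : ℝ) * (2.506 / √X) ≤ (1 - 1 / (2 * X)) * (√(2 * π) / √X) := by
    apply mul_le_mul (by linarith) _ (by positivity) (by linarith)
    exact div_le_div_of_nonneg_right h1 hs.le
  have h7 : (2.36 : ℝ) / √X ≤ (17 / 18 : ℝ) * (2.506 / √X) - 0.005 / √X := by
    rw [← mul_div_assoc, ← sub_div]
    exact div_le_div_of_nonneg_right (by norm_num) hs.le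
  linarith

end Pool.Agent.KS6_41.BW
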