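import Pool.Agent.KS6_41.BW.Defs
import Pool.Agent.KS6_41.DA.Mod
import Pool.Agent.KS6_41.DA.M1

/-!
# The minor arcs: the modular function `ell` and the maximum over the isogenies of degree three
-/

set_option autoImplicit false

namespace Pool.Agent.KS6_41.BW.MA

open Complex ModularGroup
open UpperHalfPlane hiding I
open scoped Real MatrixGroups
open Pool.Agent.KS6_41.DA (g W g_modular W_re W_re_pos ne_zero_of_re)

/-- `log (Im w ^ (1/2) |η w| ^ 2)` -/
noncomputable def ell (w : ℂ) : ℝ :=
  1 / 2 * Real.log w.im - 2 * (g (-2 * π * I * w)).re - π * w.im / 6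

lemma re_s (w : ℂ) : (-2 * π * I * w).re = 2 * π * w.im := by
  simp

lemma ell_add_one (w : ℂ) : ell (w + 1) = ell w := by
  unfold ell
  have h := Pool.Agent.KS6_41.DA.M1.g_periodic (-2 * π * I * (w + 1))
  have e : -2 * π * I * (w + 1) + 2 * π * I = -2 * π * I * w := by ring
  rw [e] at h
  rw [← h]
  simp

lemma ell_S {w : ℂ} (hw : 0 < w.im) : ell (-1 / w) = ell w := by
  have hs : 0 < (-2 * π * I * w).re := by
    rw [re_s]; positivity
  have hw0 : w ≠ 0 := by
    intro h; rw [h] at hw; simp at hw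
  have hpi : (π : ℂ) ≠ 0 := by exact_mod_cast Real.pi_ne_zero
  have hn : 0 < normSq w := Complex.normSq_pos.2 hw0
  have hW : W (-2 * π * I * w) = -2 * π * I * (-1 / w) := by
    rw [W]
    field_simp
    rw [show (Complex.I ^ 2 : ℂ) = -1 from Complex.I_sq]
    ring
  have hm := congrArg Complex.re (g_modular hs)
  rw [hW] at hm
  have e1 : (π : ℂ) ^ 2 / (6 * (-2 * π * I * w)) = ((1 / 24 : ℝ) : ℂ) * (-2 * π * I * (-1 / w)) := by
    push_cast
    field_simp
    rw [show (Complex.I ^ 2 : ℂ) = -1 from Complex.I_sq]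
    ring
  have e2 : (-2 * π * I * w) / 24 = ((1 / 24 : ℝ) : ℂ) * (-2 * π * I * w) := by
    push_cast; ring
  have e3 : (1 / 2 * Complex.log (-2 * π * I * w)).re = 1 / 2 * Real.log (2 * π * ‖w‖) := by
    rw [show (1 / 2 : ℂ) = ((1 / 2 : ℝ) : ℂ) by push_cast; ring, Complex.re_ofReal_mul,
      Complex.log_re]
    congr 2
    simp [abs_of_pos Real.pi_pos]
  have hI : (-1 / w).im = w.im / normSq w := by
    rw [show (-1 / w : ℂ) = -(w⁻¹) by rw [neg_div, one_div], Complex.neg_im, Complex.inv_im]
    ring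
  rw [Complex.sub_re, Complex.add_re, Complex.sub_re, Complex.add_re, e1, e2, e3,
    Complex.re_ofReal_mul, Complex.re_ofReal_mul, re_s, re_s, Complex.ofReal_re, hI] at hm
  unfold ell
  rw [hI, hm]
  have hl : Real.log (w.im / normSq w) = Real.log w.im - 2 * Real.log ‖w‖ := by
    rw [Real.log_div hw.ne' hn.ne', Complex.normSq_eq_norm_sq, Real.log_pow]
    push_cast
    ring
  have hl2 : Real.log (2 * π * ‖w‖) = Real.log (2 * π) + Real.log ‖w‖ := by
    rw [Real.log_mul (by positivity) (norm_ne_zero_iff.2 hw0)]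
  rw [hl, hl2]
  ring

/-- `ell` is invariant under the modular group. -/
lemma ell_smul (γ : SL(2, ℤ)) (z : ℍ) : ell ((γ • z : ℍ) : ℂ) = ell (z : ℂ) := by
  have hγ : γ ∈ Subgroup.closure {S, T} := by simp [SpecialLinearGroup.SL2Z_generators]
  induction hγ using Subgroup.closure_induction generalizing z with
  | mem x hx =>
    rcases hx with hx | hx
    · rw [hx, UpperHalfPlane.modular_S_smul]
      have h := ell_S (w := (z : ℂ)) z.im_pos
      rw [← h]
      congr 1
      rw [UpperHalfPlane.coe_mk]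
      field_simp
    · rw [Set.mem_singleton_iff] at hx
      rw [hx, UpperHalfPlane.modular_T_smul, UpperHalfPlane.coe_vadd, ← ell_add_one (z : ℂ)]
      congr 1
      push_cast
      ring
  | one => rw [one_smul]
  | mul x y _ _ hx hy => rw [mul_smul, hx, hy]
  | inv x _ hx => rw [← hx (x⁻¹ • z), smul_inv_smul]

/-- invariance for a matrix with integer entries -/
lemma ell_moebius {a b c d : ℤ} (h : a * d - b * c = 1) {w : ℂ} (hw : 0 < w.im) :
    ell ((a * w + b) / (c * w + d)) = ell w := by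
  let γ : SL(2, ℤ) := ⟨!![a, b; c, d], by rw [Matrix.det_fin_two_of]; exact h⟩
  have h1 := ell_smul γ ⟨w, hw⟩
  rw [UpperHalfPlane.specialLinearGroup_apply] at h1
  simpa [γ] using h1

/-- the maximum of `ell` over the four isogenies of degree three -/
noncomputable def M (w : ℂ) : ℝ :=
  max (max (ell (3 * w)) (ell (w / 3))) (max (ell ((w + 1) / 3)) (ell ((w + 2) / 3)))

lemma M_add_one (w : ℂ) : M (w + 1) = M w := by
  unfold M
  have e1 : ell (3 * (w + 1)) = ell (3 * w) := by
    rw [show 3 * (w + 1) = 3 * w + 1 + 1 + 1 by ring, ell_add_one, ell_add_one, ell_add_one]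
  have e2 : ell ((w + 1 + 2) / 3) = ell (w / 3) := by
    rw [show (w + 1 + 2) / 3 = w / 3 + 1 by ring, ell_add_one]
  have e3 : (w + 1 + 1) / 3 = (w + 2) / 3 := by ring
  rw [e1, e2, e3]
  ac_rfl

lemma M_S {w : ℂ} (hw : 0 < w.im) : M (-1 / w) = M w := by
  have hw0 : w ≠ 0 := by
    intro h; rw [h] at hw; simp at hw
  unfold M
  have e1 : ell (3 * (-1 / w)) = ell (w / 3) := by
    rw [← ell_S (w := w / 3) (by simpa using hw)]
    congr 1
    field_simp
  have e2 : ell (-1 / w / 3) = ell (3 * w) := by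
    rw [← ell_S (w := 3 * w) (by simpa using hw)]
    congr 1
    field_simp
  have e3 : ell ((-1 / w + 1) / 3) = ell ((w + 2) / 3) := by
    rw [← ell_moebius (a := 1) (b := -1) (c := 3) (d := -2) (by norm_num) (w := (w + 2) / 3)
      (by simpa using hw)]
    congr 1
    push_cast
    rw [show (3 : ℂ) * ((w + 2) / 3) + -2 = w by ring]
    field_simp
    ring
  have e4 : ell ((-1 / w + 2) / 3) = ell ((w + 1) / 3) := by
    rw [← ell_moebius (a := 2) (b := -1) (c := 3) (d := -1) (by norm_num) (w := (w + 1) / 3)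
      (by simpa using hw)]
    congr 1
    push_cast
    rw [show (3 : ℂ) * ((w + 1) / 3) + -1 = w by ring]
    field_simp
    ring
  rw [e1, e2, e3, e4]
  ac_rfl

lemma M_smul (γ : SL(2, ℤ)) (z : ℍ) : M ((γ • z : ℍ) : ℂ) = M (z : ℂ) := by
  have hγ : γ ∈ Subgroup.closure {S, T} := by simp [SpecialLinearGroup.SL2Z_generators]
  induction hγ using Subgroup.closure_induction generalizing z with
  | mem x hx =>
    rcases hx with hx | hx
    · rw [hx, UpperHalfPlane.modular_S_smul]
      have h := M_S (w := (z : ℂ)) z.im_pos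
      rw [← h]
      congr 1
      rw [UpperHalfPlane.coe_mk]
      field_simp
    · rw [Set.mem_singleton_iff] at hx
      rw [hx, UpperHalfPlane.modular_T_smul, UpperHalfPlane.coe_vadd, ← M_add_one (z : ℂ)]
      congr 1
      push_cast
      ring
  | one => rw [one_smul]
  | mul x y _ _ hx hy => rw [mul_smul, hx, hy]
  | inv x _ hx => rw [← hx (x⁻¹ • z), smul_inv_smul]

end Pool.Agent.KS6_41.BW.MA
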