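import Pool.Agent.KS6_41.BW.G2

/-!
# The finite check: instances (2)
-/

set_option autoImplicit false
set_option maxRecDepth 100000

namespace Pool.Agent.KS6_41.BW.G

theorem g325 : go 325 25 1000 0 10 sgl 400 0 O sgl.tail [p0] = true := by decide +kernel

theorem g375 : go 375 25 1000 0 10 sgl 400 0 O sgl.tail [p0] = true := by decide +kernel

theorem g425 : go 425 25 1000 0 10 sgl 275 0 O sgl.tail [p0] = true := by decide +kernel

theorem g475 : go 475 25 1000 0 10 sgl 275 0 O sgl.tail [p0] = true := by decide +kernel

theorem g550 : go 550 50 1000 0 10 sgl 212 0 O sgl.tail [p0] = true := by decide +kernel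

theorem g650 : go 650 50 1000 0 10 sgl 212 0 O sgl.tail [p0] = true := by decide +kernel

theorem g775 : go 775 75 1000 0 10 sgl 145 0 O sgl.tail [p0] = true := by decide +kernel

theorem g925 : go 925 75 1000 0 10 sgl 145 0 O sgl.tail [p0] = true := by decide +kernel

end Pool.Agent.KS6_41.BW.G
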