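import Pool.Agent.KS6_41.BW.G2

/-!
# The finite check: instances (3)
-/

set_option autoImplicit false
set_option maxRecDepth 100000

namespace Pool.Agent.KS6_41.BW.G

theorem g1100 : go 1100 100 1000 0 10 sgl 120 0 O sgl.tail [p0] = true := by decide +kernel

theorem g1300 : go 1300 100 1000 0 10 sgl 120 0 O sgl.tail [p0] = true := by decide +kernel

theorem g1500 : go 1500 100 1000 0 10 sgl 120 0 O sgl.tail [p0] = true := by decide +kernel

theorem g1700 : go 1700 100 1000 0 10 sgl 120 0 O sgl.tail [p0] = true := by decide +kernel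

theorem g1900 : go 1900 100 1000 0 10 sgl 120 0 O sgl.tail [p0] = true := by decide +kernel

theorem g2100 : go 2100 100 1000 0 10 sgl 120 0 O sgl.tail [p0] = true := by decide +kernel

theorem g2310 : go 2310 110 1000 0 10 sgl 120 0 O sgl.tail [p0] = true := by decide +kernel

theorem g2530 : go 2530 110 1000 0 10 sgl 120 0 O sgl.tail [p0] = true := by decide +kernel

theorem g2750 : go 2750 110 1000 0 10 sgl 120 0 O sgl.tail [p0] = true := by decide +kernel

theorem g3000 : go 3000 150 1000 1 10 sgl 120 0 O sgl.tail [p0] = true := by decide +kernel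

theorem g3225 : go 3225 75 1000 0 10 sgl 120 0 O sgl.tail [p0] = true := by decide +kernel

theorem g3400 : go 3400 100 1000 0 10 sgl 90 0 O sgl.tail [p0] = true := by decide +kernel

theorem g3650 : go 3650 150 1000 0 10 sgl 90 0 O sgl.tail [p0] = true := by decide +kernel

theorem g3960 : go 3960 160 1000 0 10 sgl 90 0 O sgl.tail [p0] = true := by decide +kernel

theorem g4300 : go 4300 180 1000 0 10 sgl 90 0 O sgl.tail [p0] = true := by decide +kernel

theorem g4680 : go 4680 200 1000 0 10 sgl 90 0 O sgl.tail [p0] = true := by decide +kernel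

theorem g5100 : go 5100 220 1000 0 10 sgl 90 0 O sgl.tail [p0] = true := by decide +kernel

theorem g5560 : go 5560 240 1000 0 10 sgl 90 0 O sgl.tail [p0] = true := by decide +kernel

theorem g6050 : go 6050 250 1000 0 10 sgl 90 0 O sgl.tail [p0] = true := by decide +kernel

theorem g6570 : go 6570 270 1000 0 10 sgl 90 0 O sgl.tail [p0] = true := by decide +kernel

theorem g7120 : go 7120 280 1000 0 10 sgl 90 0 O sgl.tail [p0] = true := by decide +kernel

theorem g7690 : go 7690 290 1000 0 10 sgl 90 0 O sgl.tail [p0] = true := by decide +kernel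

theorem g8270 : go 8270 290 1000 0 10 sgl 90 0 O sgl.tail [p0] = true := by decide +kernel

theorem g8670 : go 8670 110 1000 0 10 sgl 90 0 O sgl.tail [p0] = true := by decide +kernel

end Pool.Agent.KS6_41.BW.G
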