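import Pool.Agent.KS6_41.BW.G3a
import Pool.Agent.KS6_41.BW.G3b
import Pool.Agent.KS6_41.BW.G3c

/-!
# The finite check
-/

set_option autoImplicit false

namespace Pool.Agent.KS6_41.BW

open G

theorem fc1 {d : ℝ} {n : ℕ} (h3 : n ≠ 3) (h5 : n ≠ 5) (h0 : 0.225 ≤ d) (h1 : d ≤ 0.26) (hn : n ≤ 565) :
    Good d n := by
  exact inst (by norm_num) (by norm_num) (by norm_num) (by norm_num) g245
      (by rw [abs_le]; constructor <;> norm_num at * <;> linarith) hn h3 h5

theorem fc2 {d : ℝ} {n : ℕ} (h3 : n ≠ 3) (h5 : n ≠ 5) (h0 : 0.26 ≤ d) (h1 : d ≤ 0.3) (hn : n ≤ 475) :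
    Good d n := by
  exact inst (by norm_num) (by norm_num) (by norm_num) (by norm_num) g280
      (by rw [abs_le]; constructor <;> norm_num at * <;> linarith) hn h3 h5

theorem fc3 {d : ℝ} {n : ℕ} (h3 : n ≠ 3) (h5 : n ≠ 5) (h0 : 0.3 ≤ d) (h1 : d ≤ 0.4) (hn : n ≤ 400) :
    Good d n := by
  rcases le_total d 0.35 with h | h
  · exact inst (by norm_num) (by norm_num) (by norm_num) (by norm_num) g325
      (by rw [abs_le]; constructor <;> norm_num at * <;> linarith) hn h3 h5
  clear h0; rename' h => h0
  exact inst (by norm_num) (by norm_num) (by norm_num) (by norm_num) g375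
      (by rw [abs_le]; constructor <;> norm_num at * <;> linarith) hn h3 h5

theorem fc4 {d : ℝ} {n : ℕ} (h3 : n ≠ 3) (h5 : n ≠ 5) (h0 : 0.4 ≤ d) (h1 : d ≤ 0.5) (hn : n ≤ 275) :
    Good d n := by
  rcases le_total d 0.45 with h | h
  · exact inst (by norm_num) (by norm_num) (by norm_num) (by norm_num) g425
      (by rw [abs_le]; constructor <;> norm_num at * <;> linarith) hn h3 h5
  clear h0; rename' h => h0
  exact inst (by norm_num) (by norm_num) (by norm_num) (by norm_num) g475
      (by rw [abs_le]; constructor <;> norm_num at * <;> linarith) hn h3 h5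

theorem fc5 {d : ℝ} {n : ℕ} (h3 : n ≠ 3) (h5 : n ≠ 5) (h0 : 0.5 ≤ d) (h1 : d ≤ 0.7) (hn : n ≤ 212) :
    Good d n := by
  rcases le_total d 0.6 with h | h
  · exact inst (by norm_num) (by norm_num) (by norm_num) (by norm_num) g550
      (by rw [abs_le]; constructor <;> norm_num at * <;> linarith) hn h3 h5
  clear h0; rename' h => h0
  exact inst (by norm_num) (by norm_num) (by norm_num) (by norm_num) g650
      (by rw [abs_le]; constructor <;> norm_num at * <;> linarith) hn h3 h5

theorem fc6 {d : ℝ} {n : ℕ} (h3 : n ≠ 3) (h5 : n ≠ 5) (h0 : 0.7 ≤ d) (h1 : d ≤ 1) (hn : n ≤ 145) :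
    Good d n := by
  rcases le_total d 0.85 with h | h
  · exact inst (by norm_num) (by norm_num) (by norm_num) (by norm_num) g775
      (by rw [abs_le]; constructor <;> norm_num at * <;> linarith) hn h3 h5
  clear h0; rename' h => h0
  exact inst (by norm_num) (by norm_num) (by norm_num) (by norm_num) g925
      (by rw [abs_le]; constructor <;> norm_num at * <;> linarith) hn h3 h5

theorem fc7 {d : ℝ} {n : ℕ} (h3 : n ≠ 3) (h5 : n ≠ 5) (h0 : 1 ≤ d) (h1 : d ≤ 3.3) (hn : n ≤ 120) :
    Good d n := by
  rcases le_total d 1.2 with h | h
  · exact inst (by norm_num) (by norm_num) (by norm_num) (by norm_num) g1100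
      (by rw [abs_le]; constructor <;> norm_num at * <;> linarith) hn h3 h5
  clear h0; rename' h => h0
  rcases le_total d 1.4 with h | h
  · exact inst (by norm_num) (by norm_num) (by norm_num) (by norm_num) g1300
      (by rw [abs_le]; constructor <;> norm_num at * <;> linarith) hn h3 h5
  clear h0; rename' h => h0
  rcases le_total d 1.6 with h | h
  · exact inst (by norm_num) (by norm_num) (by norm_num) (by norm_num) g1500
      (by rw [abs_le]; constructor <;> norm_num at * <;> linarith) hn h3 h5
  clear h0; rename' h => h0
  rcases le_total d 1.8 with h | h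
  · exact inst (by norm_num) (by norm_num) (by norm_num) (by norm_num) g1700
      (by rw [abs_le]; constructor <;> norm_num at * <;> linarith) hn h3 h5
  clear h0; rename' h => h0
  rcases le_total d 2 with h | h
  · exact inst (by norm_num) (by norm_num) (by norm_num) (by norm_num) g1900
      (by rw [abs_le]; constructor <;> norm_num at * <;> linarith) hn h3 h5
  clear h0; rename' h => h0
  rcases le_total d 2.2 with h | h
  · exact inst (by norm_num) (by norm_num) (by norm_num) (by norm_num) g2100
      (by rw [abs_le]; constructor <;> norm_num at * <;> linarith) hn h3 h5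
  clear h0; rename' h => h0
  rcases le_total d 2.42 with h | h
  · exact inst (by norm_num) (by norm_num) (by norm_num) (by norm_num) g2310
      (by rw [abs_le]; constructor <;> norm_num at * <;> linarith) hn h3 h5
  clear h0; rename' h => h0
  rcases le_total d 2.64 with h | h
  · exact inst (by norm_num) (by norm_num) (by norm_num) (by norm_num) g2530
      (by rw [abs_le]; constructor <;> norm_num at * <;> linarith) hn h3 h5
  clear h0; rename' h => h0
  rcases le_total d 2.86 with h | h
  · exact inst (by norm_num) (by norm_num) (by norm_num) (by norm_num) g2750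
      (by rw [abs_le]; constructor <;> norm_num at * <;> linarith) hn h3 h5
  clear h0; rename' h => h0
  rcases le_total d 3.15 with h | h
  · exact inst1 (by norm_num) (by norm_num) g3000
      (by rw [abs_le]; constructor <;> norm_num at * <;> linarith) hn h3 h5
  clear h0; rename' h => h0
  exact inst' (by norm_num) (by norm_num) (by norm_num) g3225
      (by rw [abs_le]; constructor <;> norm_num at * <;> linarith) hn h3 h5

theorem fc8 {d : ℝ} {n : ℕ} (h3 : n ≠ 3) (h5 : n ≠ 5) (h0 : 3.3 ≤ d) (h1 : d ≤ 8.78) (hn : n ≤ 90) :
    Good d n := by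
  rcases le_total d 3.5 with h | h
  · exact inst' (by norm_num) (by norm_num) (by norm_num) g3400
      (by rw [abs_le]; constructor <;> norm_num at * <;> linarith) hn h3 h5
  clear h0; rename' h => h0
  rcases le_total d 3.8 with h | h
  · exact inst' (by norm_num) (by norm_num) (by norm_num) g3650
      (by rw [abs_le]; constructor <;> norm_num at * <;> linarith) hn h3 h5
  clear h0; rename' h => h0
  rcases le_total d 4.12 with h | h
  · exact inst' (by norm_num) (by norm_num) (by norm_num) g3960
      (by rw [abs_le]; constructor <;> norm_num at * <;> linarith) hn h3 h5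
  clear h0; rename' h => h0
  rcases le_total d 4.48 with h | h
  · exact inst' (by norm_num) (by norm_num) (by norm_num) g4300
      (by rw [abs_le]; constructor <;> norm_num at * <;> linarith) hn h3 h5
  clear h0; rename' h => h0
  rcases le_total d 4.88 with h | h
  · exact inst' (by norm_num) (by norm_num) (by norm_num) g4680
      (by rw [abs_le]; constructor <;> norm_num at * <;> linarith) hn h3 h5
  clear h0; rename' h => h0
  rcases le_total d 5.32 with h | h
  · exact inst' (by norm_num) (by norm_num) (by norm_num) g5100
      (by rw [abs_le]; constructor <;> norm_num at * <;> linarith) hn h3 h5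
  clear h0; rename' h => h0
  rcases le_total d 5.8 with h | h
  · exact inst' (by norm_num) (by norm_num) (by norm_num) g5560
      (by rw [abs_le]; constructor <;> norm_num at * <;> linarith) hn h3 h5
  clear h0; rename' h => h0
  rcases le_total d 6.3 with h | h
  · exact inst' (by norm_num) (by norm_num) (by norm_num) g6050
      (by rw [abs_le]; constructor <;> norm_num at * <;> linarith) hn h3 h5
  clear h0; rename' h => h0
  rcases le_total d 6.84 with h | h
  · exact inst' (by norm_num) (by norm_num) (by norm_num) g6570
      (by rw [abs_le]; constructor <;> norm_num at * <;> linarith) hn h3 h5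
  clear h0; rename' h => h0
  rcases le_total d 7.4 with h | h
  · exact inst' (by norm_num) (by norm_num) (by norm_num) g7120
      (by rw [abs_le]; constructor <;> norm_num at * <;> linarith) hn h3 h5
  clear h0; rename' h => h0
  rcases le_total d 7.98 with h | h
  · exact inst' (by norm_num) (by norm_num) (by norm_num) g7690
      (by rw [abs_le]; constructor <;> norm_num at * <;> linarith) hn h3 h5
  clear h0; rename' h => h0
  rcases le_total d 8.56 with h | h
  · exact inst' (by norm_num) (by norm_num) (by norm_num) g8270
      (by rw [abs_le]; constructor <;> norm_num at * <;> linarith) hn h3 h5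
  clear h0; rename' h => h0
  exact inst' (by norm_num) (by norm_num) (by norm_num) g8670
      (by rw [abs_le]; constructor <;> norm_num at * <;> linarith) hn h3 h5

end Pool.Agent.KS6_41.BW
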