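import Pool.Agent.KS6_41.BW.Defs

/-!
# Jacobi's identity for the cube of Euler's product, weak form

`c 3 n = 0` for `n ≡ 2 (mod 3)`.  We prove a finite form of Jacobi's identity: with
`P n = ∏_{1 ≤ i ≤ n} (1 - X ^ i)`,
`P N ^ 2 = ∑_{k ≤ N} (-1) ^ k (2 k + 1) X ^ (k (k + 1) / 2) P (2 N + 1) / (P (N - k) P (N + 1 + k))`.
-/

set_option autoImplicit false

namespace Pool.Agent.KS6_41.BW.J

open PowerSeries Finset

/-- `P n = ∏_{1 ≤ i ≤ n} (1 - X ^ i)` -/
noncomputable def P (n : ℕ) : PowerSeries ℝ := ∏ i ∈ range n, (1 - X ^ (i + 1))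

lemma P_succ (n : ℕ) : P (n + 1) = P n * (1 - X ^ (n + 1)) := prod_range_succ _ _

lemma P_zero : P 0 = 1 := rfl

lemma P_const (n : ℕ) : constantCoeff (P n) = 1 := by
  unfold P
  rw [map_prod]
  refine prod_eq_one fun i _ => ?_
  simp

lemma P_inv (n : ℕ) : P n * (P n)⁻¹ = 1 :=
  PowerSeries.mul_inv_cancel _ (by rw [P_const]; exact one_ne_zero)

/-- the inverse of `P (N - k)`, `0` if `N < k` -/
noncomputable def r (N k : ℕ) : PowerSeries ℝ := if k ≤ N then (P (N - k))⁻¹ else 0

/-- the inverse of `P (N + 1 + k)` -/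
noncomputable def s (N k : ℕ) : PowerSeries ℝ := (P (N + 1 + k))⁻¹

lemma inv_succ (n : ℕ) : (P n)⁻¹ = (1 - X ^ (n + 1)) * (P (n + 1))⁻¹ := by
  have h1 := P_inv n
  have h2 := P_inv (n + 1)
  rw [P_succ] at h2 ⊢
  calc (P n)⁻¹ = (P n)⁻¹ * (P n * (1 - X ^ (n + 1)) * (P n * (1 - X ^ (n + 1)))⁻¹) := by
        rw [h2, mul_one]
    _ = (P n * (P n)⁻¹) * ((1 - X ^ (n + 1)) * (P n * (1 - X ^ (n + 1)))⁻¹) := by ring
    _ = _ := by rw [h1, one_mul]

lemma r_gt {N k : ℕ} (h : N < k) : r N k = 0 := by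
  unfold r
  rw [if_neg (by omega)]

lemma r_succ (N k : ℕ) : r N (k + 1) = (1 - X ^ (N - k)) * r N k := by
  unfold r
  rcases lt_trichotomy k N with h | h | h
  · rw [if_pos (by omega), if_pos h.le]
    have e : N - k = (N - (k + 1)) + 1 := by omega
    rw [e]
    exact inv_succ _
  · subst h
    rw [if_neg (by omega), if_pos le_rfl]
    simp
  · rw [if_neg (by omega), if_neg (by omega), mul_zero]

lemma r_succ_succ (N k : ℕ) : r (N + 1) (k + 1) = r N k := by
  unfold r
  by_cases h : k ≤ N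
  · rw [if_pos h, if_pos (by omega)]
    congr 2
    omega
  · rw [if_neg h, if_neg (by omega)]

lemma s_step (N k : ℕ) : s N k = (1 - X ^ (N + k + 2)) * s N (k + 1) := by
  unfold s
  have h := inv_succ (N + 1 + k)
  rw [h]
  congr 3
  omega

lemma s_shift (N k : ℕ) : s (N + 1) k = s N (k + 1) := by
  unfold s
  congr 2
  omega

/-- the triangular numbers -/
def T (k : ℕ) : ℕ := k * (k + 1) / 2

lemma T_succ (k : ℕ) : T (k + 1) = T k + (k + 1) := by
  unfold T
  have : (k + 1) * (k + 1 + 1) = k * (k + 1) + 2 * (k + 1) := by ring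
  rw [this, Nat.add_mul_div_left _ _ (by norm_num)]

/-- the coefficients of the finite theta product, by their recursion -/
noncomputable def h : ℕ → ℕ → PowerSeries ℝ
  | 0, 0 => 1
  | 0, _ + 1 => 0
  | N + 1, 0 => (1 + X ^ (N + 1) + X ^ (2 * (N + 1))) * h N 0 - X ^ (N + 1) * h N 1
  | N + 1, k + 1 => (1 + X ^ (2 * (N + 1))) * h N (k + 1) - X ^ (N + 1) * (h N k + h N (k + 2))

/-- closed form -/
lemma h_eq (N : ℕ) : ∀ k : ℕ, h N k = (-1) ^ k * X ^ T k * P (2 * N + 1) * r N k * s N k := by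
  induction N with
  | zero =>
    intro k
    cases k with
    | zero =>
      rw [h, r, if_pos le_rfl, s]
      have h0 : (P 0)⁻¹ = 1 := by have := P_inv 0; rwa [P_zero, one_mul] at this
      have hT : T 0 = 0 := rfl
      simp only [pow_zero, one_mul, Nat.sub_zero, hT, h0, mul_one, mul_zero, zero_add, add_zero]
      exact (P_inv 1).symm
    | succ k => rw [h, r_gt (Nat.succ_pos k)]; ring
  | succ N ih =>
    have hP : P (2 * (N + 1) + 1) =
        P (2 * N + 1) * (1 - X ^ (2 * N + 2)) * (1 - X ^ (2 * N + 3)) := by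
      have e : 2 * (N + 1) + 1 = 2 * N + 1 + 1 + 1 := by ring
      rw [e, P_succ, P_succ]
    intro k
    cases k with
    | zero =>
      rw [h, ih 0, ih 1, hP, s_shift, s_step N 0, r_succ N 0]
      have hr : r N 0 = (1 - X ^ (N + 1)) * r (N + 1) 0 := by
        unfold r
        rw [if_pos (Nat.zero_le _), if_pos (Nat.zero_le _), Nat.sub_zero, Nat.sub_zero]
        exact inv_succ N
      have hT0 : T 0 = 0 := rfl
      have hT1 : T 1 = 1 := rfl
      rw [hr, hT0, hT1, Nat.sub_zero]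
      ring
    | succ k =>
      rw [h, ih k, ih (k + 1), ih (k + 2), hP, s_shift, r_succ_succ, r_succ N (k + 1), r_succ N k,
        s_step N k, s_step N (k + 1)]
      by_cases hk : N < k
      · rw [r_gt hk]; ring
      · obtain ⟨n, rfl⟩ : ∃ n, N = k + n := ⟨N - k, by omega⟩
        have e1 : k + n - k = n := by omega
        have e2 : k + n - (k + 1) = n - 1 := by omega
        rw [e1, e2, T_succ (k + 1), T_succ k]
        cases n with
        | zero => simp only [pow_zero, add_zero]; ring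
        | succ n =>
          rw [Nat.add_sub_cancel]
          ring


lemma h_gt {N k : ℕ} (hk : N < k) : h N k = 0 := by
  rw [h_eq, r_gt hk]; ring

/-- summation of the recursion -/
lemma sum_rec (Q : PowerSeries ℝ) (f : ℕ → PowerSeries ℝ) (M : ℕ) :
    ((1 + Q + Q ^ 2) * f 0 - Q * f 1) + ∑ k ∈ range M, (2 * (k : PowerSeries ℝ) + 3) *
      ((1 + Q ^ 2) * f (k + 1) - Q * (f k + f (k + 2))) =
    (1 - Q) ^ 2 * ∑ k ∈ range (M + 1), (2 * (k : PowerSeries ℝ) + 1) * f k +
      Q * (2 * (M : PowerSeries ℝ) + 3) * f M - Q * (2 * (M : PowerSeries ℝ) + 1) * f (M + 1) := by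
  induction M with
  | zero => simp; ring
  | succ M ih =>
    rw [sum_range_succ, ← add_assoc, ih, sum_range_succ _ (M + 1)]
    push_cast
    ring

/-- the finite form of Jacobi's identity -/
lemma sum_h (N : ℕ) : ∀ K : ℕ, N < K →
    ∑ k ∈ range K, (2 * (k : PowerSeries ℝ) + 1) * h N k = P N ^ 2 := by
  induction N with
  | zero =>
    intro K hK
    obtain ⟨K, rfl⟩ : ∃ K', K = K' + 1 := ⟨K - 1, by omega⟩
    rw [sum_range_succ', sum_eq_zero]
    · rw [h, P_zero]; simp
    · intro k _; rw [h, mul_zero]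
  | succ N ih =>
    intro K hK
    obtain ⟨M, rfl⟩ : ∃ M, K = M + 1 := ⟨K - 1, by omega⟩
    have h1 := sum_rec (X ^ (N + 1)) (h N) M
    rw [h_gt (show N < M by omega), h_gt (show N < M + 1 by omega), ih (M + 1) (by omega)] at h1
    rw [sum_range_succ', P_succ]
    have h2 : ∀ k : ℕ, (2 * ((k + 1 : ℕ) : PowerSeries ℝ) + 1) * h (N + 1) (k + 1) =
        (2 * (k : PowerSeries ℝ) + 3) * ((1 + (X ^ (N + 1)) ^ 2) * h N (k + 1) -
          X ^ (N + 1) * (h N k + h N (k + 2))) := by
      intro k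
      rw [h]
      push_cast
      ring
    rw [sum_congr rfl fun k _ => h2 k, h]
    linear_combination h1

/-- quotients of the products -/
lemma P_quot (a : ℕ) (d : ℕ) : ∃ E : PowerSeries ℝ, P (a + d) * (P a)⁻¹ = 1 + X ^ (a + 1) * E := by
  induction d with
  | zero => exact ⟨0, by rw [add_zero, P_inv]; ring⟩
  | succ d ih =>
    obtain ⟨E, hE⟩ := ih
    refine ⟨E - X ^ d - X ^ (a + 1 + d) * E, ?_⟩
    rw [← add_assoc, P_succ]
    calc P (a + d) * (1 - X ^ (a + d + 1)) * (P a)⁻¹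
        = (P (a + d) * (P a)⁻¹) * (1 - X ^ (a + d + 1)) := by ring
      _ = _ := by rw [hE]; ring

lemma le_T (k : ℕ) : k ≤ T k := by
  induction k with
  | zero => exact Nat.zero_le _
  | succ k ih => rw [T_succ]; omega

lemma trunc (N k : ℕ) : ∃ E : PowerSeries ℝ, P N * h N k = (-1) ^ k * X ^ T k + X ^ (N + 1) * E := by
  by_cases hk : N < k
  · obtain ⟨d, hd⟩ := Nat.exists_eq_add_of_le (show N + 1 ≤ T k from le_trans hk (le_T k))
    refine ⟨-((-1) ^ k * X ^ d), ?_⟩
    rw [h_gt hk, hd]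
    ring
  · obtain ⟨n, rfl⟩ : ∃ n, N = k + n := ⟨N - k, by omega⟩
    obtain ⟨E1, h1⟩ := P_quot n k
    obtain ⟨E2, h2⟩ := P_quot (k + n + 1 + k) n
    have e2 : k + n + 1 + k + n = 2 * (k + n) + 1 := by ring
    rw [e2] at h2
    rw [add_comm n k] at h1
    have hr : r (k + n) k = (P n)⁻¹ := by
      unfold r
      rw [if_pos (by omega)]
      congr 2
      omega
    rw [h_eq, hr, s]
    obtain ⟨t, ht⟩ := Nat.exists_eq_add_of_le (le_T k)
    rw [ht]
    refine ⟨(-1) ^ k * X ^ t * (E1 + X ^ (2 * k + 1) * E2 + X ^ (n + 1 + (2 * k + 1)) * E1 * E2), ?_⟩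
    calc P (k + n) * ((-1) ^ k * X ^ (k + t) * P (2 * (k + n) + 1) * (P n)⁻¹ * (P (k + n + 1 + k))⁻¹)
        = (-1) ^ k * X ^ (k + t) * (P (k + n) * (P n)⁻¹) *
            (P (2 * (k + n) + 1) * (P (k + n + 1 + k))⁻¹) := by ring
      _ = _ := by rw [h1, h2]; ring

lemma T_mod (k : ℕ) : T k % 3 ≠ 2 := by
  have h1 : 2 * T k = k * (k + 1) := by
    induction k with
    | zero => rfl
    | succ k ih => rw [T_succ, mul_add, ih]; ring
  intro h2
  have h3 : k * (k + 1) % 3 = 1 := by rw [← h1]; omega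
  have h4 : k % 3 = 0 ∨ k % 3 = 1 ∨ k % 3 = 2 := by omega
  rcases h4 with h4 | h4 | h4 <;> simp [Nat.mul_mod, Nat.add_mod, h4] at h3

/-- Jacobi: the coefficients of the cube vanish for `n ≡ 2 (mod 3)` -/
lemma coeff_cube {N n : ℕ} (hn : n ≤ N) (h3 : n % 3 = 2) : coeff n (P N ^ 3) = 0 := by
  choose E hE using trunc N
  have h1 : P N ^ 3 = ∑ k ∈ range (N + 1), (2 * (k : PowerSeries ℝ) + 1) *
      ((-1) ^ k * X ^ T k + X ^ (N + 1) * E k) := by
    have e : P N ^ 3 = P N * P N ^ 2 := by ring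
    rw [e, ← sum_h N (N + 1) (Nat.lt_succ_self N), mul_sum]
    refine sum_congr rfl fun k _ => ?_
    rw [← hE k]
    ring
  rw [h1, map_sum]
  refine sum_eq_zero fun k _ => ?_
  have e : (2 * (k : PowerSeries ℝ) + 1) * ((-1) ^ k * X ^ T k + X ^ (N + 1) * E k) =
      C ((2 * (k : ℝ) + 1) * (-1) ^ k) * X ^ T k + (2 * (k : PowerSeries ℝ) + 1) * E k * X ^ (N + 1) := by
    have : (C ((2 * (k : ℝ) + 1) * (-1) ^ k) : PowerSeries ℝ) =
        (2 * (k : PowerSeries ℝ) + 1) * (-1) ^ k := by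
      rw [map_mul, map_add, map_mul, map_pow, map_neg, map_one, map_natCast, map_ofNat]
    rw [this]
    ring
  have hT : n ≠ T k := fun hh => T_mod k (hh ▸ h3)
  have hN : ¬ (N + 1 ≤ n) := by omega
  rw [e, map_add, coeff_C_mul, coeff_X_pow, coeff_mul_X_pow', if_neg hT, if_neg hN]
  ring

/-! ### Logarithmic derivatives -/

/-- the logarithmic derivative of `1 - X ^ k` -/
noncomputable def U (k : ℕ) : PowerSeries ℝ := PowerSeries.mk fun m => if k ∣ m + 1 then -(k : ℝ) else 0

lemma deriv_U {k : ℕ} (hk : 0 < k) : d⁄dX ℝ (1 - X ^ k : PowerSeries ℝ) = U k * (1 - X ^ k) := by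
  ext m
  rw [coeff_derivative, mul_sub, mul_one, map_sub, map_sub, coeff_mul_X_pow', coeff_one, coeff_X_pow,
    U, coeff_mk, coeff_mk, if_neg (Nat.succ_ne_zero m)]
  rcases lt_trichotomy (m + 1) k with h | h | h
  · have a1 : ¬ (m + 1 = k) := by omega
    have a2 : ¬ (k ∣ m + 1) := fun hd => absurd (Nat.le_of_dvd (Nat.succ_pos m) hd) (by omega)
    have a3 : ¬ (k ≤ m) := by omega
    simp only [if_neg a1, if_neg a2, if_neg a3]
    ring
  · subst h
    have a3 : ¬ (m + 1 ≤ m) := by omega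
    simp only [if_neg a3, if_true, dvd_refl]
    push_cast
    ring
  · have a1 : ¬ (m + 1 = k) := by omega
    have a3 : k ≤ m := by omega
    have e : m + 1 = (m - k + 1) + k := by omega
    have : (k ∣ m + 1) ↔ (k ∣ m - k + 1) := by
      conv_lhs => rw [e]
      exact Nat.dvd_add_self_right
    by_cases hd : k ∣ m + 1
    · simp only [if_neg a1, if_pos a3, if_pos hd, if_pos (this.1 hd)]; ring
    · simp only [if_neg a1, if_pos a3, if_neg hd, if_neg (fun hh => hd (this.2 hh))]; ring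

lemma deriv_prod (n : ℕ) (e : ℕ → ℕ) (he : ∀ i, 0 < e i) :
    d⁄dX ℝ (∏ i ∈ range n, (1 - X ^ e i) : PowerSeries ℝ) =
      (∑ i ∈ range n, U (e i)) * ∏ i ∈ range n, (1 - X ^ e i) := by
  induction n with
  | zero => simp
  | succ n ih =>
    rw [prod_range_succ, sum_range_succ, Derivation.leibniz, ih, deriv_U (he n), smul_eq_mul,
      smul_eq_mul]
    ring

lemma deriv_cube (n : ℕ) (e : ℕ → ℕ) (he : ∀ i, 0 < e i) :
    d⁄dX ℝ ((∏ i ∈ range n, (1 - X ^ e i) : PowerSeries ℝ) ^ 3) =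
      (3 * ∑ i ∈ range n, U (e i)) * (∏ i ∈ range n, (1 - X ^ e i)) ^ 3 := by
  rw [Derivation.leibniz_pow, deriv_prod n e he]
  simp only [smul_eq_mul, nsmul_eq_mul]
  push_cast
  ring

lemma ode {A B V W : PowerSeries ℝ} (hA : d⁄dX ℝ A = V * A) (hB : d⁄dX ℝ B = W * B)
    (h0 : coeff 0 A = coeff 0 B) {N : ℕ} (hVW : ∀ m < N, coeff m V = coeff m W) :
    ∀ n ≤ N, coeff n A = coeff n B := by
  intro n
  induction n using Nat.strong_induction_on with
  | _ n ih =>
    intro hn
    cases n with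
    | zero => exact h0
    | succ n =>
      have h1 := congrArg (coeff n) hA
      have h2 := congrArg (coeff n) hB
      rw [coeff_derivative, coeff_mul] at h1 h2
      have h3 : ∑ p ∈ antidiagonal n, coeff p.1 V * coeff p.2 A =
          ∑ p ∈ antidiagonal n, coeff p.1 W * coeff p.2 B := by
        refine sum_congr rfl fun p hp => ?_
        have hp' := mem_antidiagonal.1 hp
        rw [hVW p.1 (by omega), ih p.2 (by omega) (by omega)]
      rw [h3, ← h2] at h1
      exact mul_right_cancel₀ (by positivity) h1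

/-- the generating function of `c 3` -/
noncomputable def F : PowerSeries ℝ := PowerSeries.mk (c 3)

/-- the generating function of `sg` -/
noncomputable def SG : PowerSeries ℝ := PowerSeries.mk fun m => -3 * (sg (m + 1) : ℝ)

lemma deriv_F : d⁄dX ℝ F = SG * F := by
  ext n
  rw [coeff_derivative, coeff_mul, F, SG, Finset.Nat.sum_antidiagonal_eq_sum_range_succ_mk]
  simp only [coeff_mk]
  rw [c, Finset.sum_range (fun k => -3 * (sg (k + 1) : ℝ) * c 3 (n - k))]
  have h0 : ((n : ℝ) + 1) ≠ 0 := by positivity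
  have h1 : ∑ k : Fin (n + 1), -3 * (sg ((k : ℕ) + 1) : ℝ) * c 3 (n - k) =
      -3 * ∑ k : Fin (n + 1), (sg ((k : ℕ) + 1) : ℝ) * c 3 (n - k) := by
    rw [mul_sum]
    refine sum_congr rfl fun k _ => ?_
    ring
  rw [h1]
  field_simp

/-- supported in multiples of three -/
def Dv (f : PowerSeries ℝ) : Prop := ∀ n, ¬ 3 ∣ n → coeff n f = 0

lemma Dv.mul {f g : PowerSeries ℝ} (hf : Dv f) (hg : Dv g) : Dv (f * g) := by
  intro n hn
  rw [coeff_mul]
  refine sum_eq_zero fun p hp => ?_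
  have hp' := mem_antidiagonal.1 hp
  by_cases h1 : 3 ∣ p.1
  · rw [hg p.2 (by omega), mul_zero]
  · rw [hf p.1 h1, zero_mul]

lemma Dv.one : Dv 1 := by
  intro n hn
  rw [coeff_one, if_neg]
  rintro rfl
  exact hn (dvd_zero 3)

lemma Dv.prod (n : ℕ) : Dv (∏ i ∈ range n, (1 - X ^ (3 * (i + 1)))) := by
  induction n with
  | zero => exact Dv.one
  | succ n ih =>
    rw [prod_range_succ]
    refine ih.mul ?_
    intro m hm
    rw [map_sub, Dv.one m hm, coeff_X_pow, if_neg]
    · ring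
    · rintro rfl
      exact hm (dvd_mul_right _ _)

lemma coeff_sum_U (N m : ℕ) (e : ℕ → ℕ) : coeff m (∑ i ∈ range N, U (e i)) =
    -((∑ i ∈ (range N).filter (fun i => e i ∣ m + 1), e i : ℕ) : ℝ) := by
  rw [map_sum, sum_filter]
  push_cast
  rw [← sum_neg_distrib]
  refine sum_congr rfl fun i _ => ?_
  rw [U, coeff_mk]
  split_ifs <;> simp

lemma div_sum (N m : ℕ) (hm : m < N) :
    ∑ i ∈ (range N).filter (fun i => (i + 1) ∣ m + 1), (i + 1) =
      sg (m + 1) + ∑ i ∈ (range N).filter (fun i => 3 * (i + 1) ∣ m + 1), 3 * (i + 1) := by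
  have h1 : ∑ i ∈ (range N).filter (fun i => (i + 1) ∣ m + 1), (i + 1) =
      ∑ k ∈ (m + 1).divisors, k := by
    refine sum_bij (fun i _ => i + 1) ?_ ?_ ?_ ?_
    · intro i hi
      rw [mem_filter] at hi
      exact Nat.mem_divisors.2 ⟨hi.2, Nat.succ_ne_zero m⟩
    · intro i _ j _ hij
      exact Nat.succ_injective hij
    · intro k hk
      have hk1 := Nat.dvd_of_mem_divisors hk
      have hk2 := Nat.pos_of_mem_divisors hk
      have hk3 := Nat.le_of_dvd (Nat.succ_pos m) hk1
      refine ⟨k - 1, ?_, by omega⟩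
      rw [mem_filter, mem_range]
      exact ⟨by omega, by rwa [Nat.sub_add_cancel hk2]⟩
    · intro i _; rfl
  have h2 : ∑ i ∈ (range N).filter (fun i => 3 * (i + 1) ∣ m + 1), 3 * (i + 1) =
      ∑ k ∈ (m + 1).divisors.filter (fun k => 3 ∣ k), k := by
    refine sum_bij (fun i _ => 3 * (i + 1)) ?_ ?_ ?_ ?_
    · intro i hi
      rw [mem_filter] at hi ⊢
      exact ⟨Nat.mem_divisors.2 ⟨hi.2, Nat.succ_ne_zero m⟩, dvd_mul_right _ _⟩
    · intro i _ j _ hij
      have : 3 * (i + 1) = 3 * (j + 1) := hij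
      omega
    · intro k hk
      rw [mem_filter] at hk
      obtain ⟨hk0, j, rfl⟩ := hk
      have hk1 := Nat.dvd_of_mem_divisors hk0
      have hk2 := Nat.pos_of_mem_divisors hk0
      have hk3 := Nat.le_of_dvd (Nat.succ_pos m) hk1
      refine ⟨j - 1, ?_, ?_⟩
      · rw [mem_filter, mem_range]
        refine ⟨by omega, ?_⟩
        rwa [Nat.sub_add_cancel (by omega)]
      · show 3 * (j - 1 + 1) = 3 * j
        omega
    · intro i _; rfl
  rw [h1, h2, sg]
  exact ((add_comm _ _).trans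
    (sum_filter_add_sum_filter_not (m + 1).divisors (fun k => 3 ∣ k) (fun k => k))).symm

/-- **Jacobi's identity, weak form.** -/
theorem c_three' (n : ℕ) : n % 3 = 2 → c 3 n = 0 := by
  induction n using Nat.strong_induction_on with
  | _ n ih =>
    intro h3
    have hK := deriv_cube n (fun i => 3 * (i + 1)) (fun i => by positivity)
    have hJ := deriv_cube n (fun i => i + 1) (fun i => by positivity)
    set K : PowerSeries ℝ := (∏ i ∈ range n, (1 - X ^ (3 * (i + 1)))) ^ 3 with hKdef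
    have hFK : d⁄dX ℝ (F * K) = (SG + 3 * ∑ i ∈ range n, U (3 * (i + 1))) * (F * K) := by
      rw [Derivation.leibniz, hK, deriv_F, smul_eq_mul, smul_eq_mul]
      ring
    have hK0 : coeff 0 K = 1 := by
      rw [coeff_zero_eq_constantCoeff_apply, hKdef, map_pow, map_prod]
      rw [prod_eq_one, one_pow]
      intro i _
      simp
    have hF0 : coeff 0 F = 1 := by rw [F, coeff_mk, c]
    have h0 : coeff 0 ((∏ i ∈ range n, (1 - X ^ (i + 1)) : PowerSeries ℝ) ^ 3) = coeff 0 (F * K) := by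
      have h1 := P_const n
      unfold P at h1
      rw [coeff_zero_eq_constantCoeff_apply, map_pow, h1, one_pow,
        coeff_zero_eq_constantCoeff_apply, map_mul, ← coeff_zero_eq_constantCoeff_apply,
        ← coeff_zero_eq_constantCoeff_apply, hF0, hK0, mul_one]
    have hc := ode hJ hFK h0 (N := n) ?_ n le_rfl
    · have hc2 : coeff n (P n ^ 3) = 0 := coeff_cube le_rfl h3
      unfold P at hc2
      rw [hc2, coeff_mul] at hc
      have hDK : Dv K := by
        have e : K = (∏ i ∈ range n, (1 - X ^ (3 * (i + 1)))) *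
            ((∏ i ∈ range n, (1 - X ^ (3 * (i + 1)))) * (∏ i ∈ range n, (1 - X ^ (3 * (i + 1))))) := by
          rw [hKdef]; ring
        rw [e]
        exact (Dv.prod n).mul ((Dv.prod n).mul (Dv.prod n))
      have h4 : ∑ p ∈ antidiagonal n, coeff p.1 F * coeff p.2 K = coeff n F * coeff 0 K := by
        rw [sum_eq_single (n, 0)]
        · intro p hp hne
          have hp' := mem_antidiagonal.1 hp
          by_cases h5 : 3 ∣ p.2
          · have hlt : p.1 < n := by
              rcases Nat.eq_zero_or_pos p.2 with h6 | h6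
              · exact absurd (Prod.ext (by simpa [h6] using hp') h6) hne
              · omega
            have : coeff p.1 F = 0 := by
              rw [F, coeff_mk]
              exact ih p.1 hlt (by omega)
            rw [this, zero_mul]
          · rw [hDK p.2 h5, mul_zero]
        · intro hne
          exact absurd (HasAntidiagonal.mem_antidiagonal.2 (show n + 0 = n from Nat.add_zero n)) hne
      rw [h4, hK0, mul_one, F, coeff_mk] at hc
      exact hc.symm
    · intro m hm
      have e3 : (3 : PowerSeries ℝ) = C (3 : ℝ) := by rw [map_ofNat]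
      rw [map_add, e3, coeff_C_mul, coeff_C_mul, coeff_sum_U, coeff_sum_U, SG, coeff_mk, div_sum n m hm]
      push_cast
      ring

end Pool.Agent.KS6_41.BW.J

namespace Pool.Agent.KS6_41.BW

/-- **Jacobi's identity, weak form**: the cube of the infinite Borwein product has no terms
`q ^ n` with `n ≡ 2 (mod 3)`. -/
theorem c_three (n : ℕ) (h : n % 3 = 2) : c 3 n = 0 := J.c_three' n h

end Pool.Agent.KS6_41.BW
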