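import Pool.Agent.KS6_41.BW.Bounds
import Pool.Agent.KS6_41.BW.ArcLow
import Pool.Agent.KS6_41.BW.J

/-!
# The asymptotic formula with explicit errors
-/

set_option autoImplicit false

namespace Pool.Agent.KS6_41.BW

open Complex MeasureTheory Set
open scoped Real Interval ComplexConjugate

/-- the angle -/
noncomputable def th (d : ℝ) (n : ℕ) : ℝ := 2 * π * n / 3 + π * d / 18

theorem PP_eq {d : ℝ} {n : ℕ} {δ X : ℝ} (h0 : 0 < δ) (h1 : π ^ 2 * d / 27 = δ * X)
    (h2 : (n : ℝ) - d / 12 = X / (4 * δ)) :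
    PP d n δ = cexp (th d n * I) * ((2 * δ * Iarc X : ℝ) : ℂ) := by
  have hδ : (δ : ℂ) ≠ 0 := by exact_mod_cast h0.ne'
  have e1 : ∀ y : ℝ, cexp (EE d n (δ + ((δ * y : ℝ) : ℂ) * I)) =
      cexp (th d n * I) * hh X (1 + y * I) := by
    intro y
    rw [hh, ← Complex.exp_add]
    congr 1
    have hv : (1 + (y : ℂ) * I) ≠ 0 := by
      have := path_ne one_pos y
      push_cast at this
      exact this
    have e2 : ((δ : ℂ) + ((δ * y : ℝ) : ℂ) * I) = δ * (1 + y * I) := by push_cast; ring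
    have h1' : (π : ℂ) ^ 2 * d / 27 = δ * X := by exact_mod_cast h1
    have h2' : (n : ℂ) - d / 12 = X / (4 * δ) := by exact_mod_cast h2
    rw [EE, e2, h1', h2', th]
    generalize (1 + (y : ℂ) * I) = v at hv ⊢
    push_cast
    field_simp
    ring
  have h3 := intervalIntegral.smul_integral_comp_mul_left (a := -√3) (b := √3)
    (f := fun ψ : ℝ => cexp (EE d n (δ + (ψ : ℂ) * I))) δ
  rw [show δ * -√3 = -(√3 * δ) by ring, show δ * √3 = √3 * δ by ring] at h3
  rw [PP, ← h3, intervalIntegral.integral_congr (fun y _ => e1 y),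
    intervalIntegral.integral_const_mul, seg_integral, Complex.real_smul]
  push_cast
  ring

theorem PP_three {n : ℕ} (hn : n % 3 = 2) {δ : ℝ} (h0 : 0 < δ) :
    PP 3 n δ + conj (PP 3 n δ) = 0 := by
  have h1 : conj (PP 3 n δ) = -PP 3 n δ := by
    rw [PP, ← integral_conj']
    have h3 := intervalIntegral.integral_comp_neg (a := -(√3 * δ)) (b := √3 * δ)
      (fun ψ : ℝ => cexp (EE 3 n (δ + (ψ : ℂ) * I)))
    rw [neg_neg] at h3
    rw [← h3, ← intervalIntegral.integral_neg]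
    refine intervalIntegral.integral_congr fun ψ _ => ?_
    show conj (cexp (EE 3 n (δ + (ψ : ℂ) * I))) = -cexp (EE 3 n (δ + ((-ψ : ℝ) : ℂ) * I))
    rw [← Complex.exp_conj]
    obtain ⟨m, hm⟩ : ∃ m, n = 3 * m + 2 := ⟨n / 3, by omega⟩
    have e : conj (EE 3 n (δ + (ψ : ℂ) * I)) = EE 3 n (δ + ((-ψ : ℝ) : ℂ) * I) + π * I +
        ((-(2 * m + 2 : ℤ) : ℤ) : ℂ) * (2 * π * I) := by
      rw [EE, EE]
      simp only [map_add, map_mul, map_div₀, map_sub, Complex.conj_I, Complex.conj_ofReal,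
        map_pow, map_natCast, map_ofNat]
      rw [hm]
      push_cast
      ring
    rw [e, Complex.exp_add, Complex.exp_int_mul_two_pi_mul_I, mul_one, Complex.exp_add,
      Complex.exp_pi_mul_I]
    ring
  rw [h1]
  ring

theorem Err_three {n : ℕ} (hn : n % 3 = 2) {δ : ℝ} (h0 : 0 < δ) : Err 3 n δ = 0 := by
  rw [Err, PP_three hn h0, c_three n hn]
  simp

theorem Err_eq {d : ℝ} {n : ℕ} {δ X : ℝ} (h0 : 0 < δ) (h1 : π ^ 2 * d / 27 = δ * X)
    (h2 : (n : ℝ) - d / 12 = X / (4 * δ)) :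
    Err d n δ = ((2 * π * (c d n - 2 * δ / π * Real.cos (th d n) * Iarc X) : ℝ) : ℂ) := by
  rw [Err, PP_eq h0 h1 h2, Complex.exp_mul_I, ← Complex.ofReal_cos, ← Complex.ofReal_sin]
  simp only [map_add, map_mul, Complex.conj_I, Complex.conj_ofReal]
  have hpi : (π : ℂ) ≠ 0 := by exact_mod_cast Real.pi_ne_zero
  push_cast
  field_simp
  ring

theorem ex_eq {d : ℝ} {n : ℕ} {δ X : ℝ} (h0 : 0 < δ) (h1 : π ^ 2 * d / 27 = δ * X)
    (h2 : (n : ℝ) - d / 12 = X / (4 * δ)) : ex d n δ = 0.22 * d + X / 2 := by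
  have h3 : d * (π ^ 2 / (108 * δ)) = X / 4 := by
    have : d * (π ^ 2 / (108 * δ)) = (π ^ 2 * d / 27) / (4 * δ) := by
      field_simp
      ring
    rw [this, h1]
    field_simp
  have h4 : (n - d / 12) * δ = X / 4 := by
    rw [h2]
    field_simp
  unfold ex
  linarith

theorem key {d : ℝ} (hd : 0 ≤ d) (hd9 : d ≤ 9) {n : ℕ} {δ X : ℝ} (h0 : 0 < δ) (hδ : δ ≤ 1 / 10)
    (h1 : π ^ 2 * d / 27 = δ * X) (h2 : (n : ℝ) - d / 12 = X / (4 * δ)) :
    |c d n - 2 * δ / π * Real.cos (th d n) * Iarc X| ≤ Real.exp (0.22 * d + X / 2) := by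
  have h := norm_Err_le hd hd9 n h0 hδ
  rw [Err_eq h0 h1 h2, ex_eq h0 h1 h2, Complex.norm_real, Real.norm_eq_abs, abs_mul,
    abs_of_pos (by positivity : (0 : ℝ) < 2 * π)] at h
  exact le_of_mul_le_mul_left h (by positivity)

theorem key3 {d : ℝ} (hd : 0 ≤ d) (hd3 : d ≤ 3) {n : ℕ} (hn : n % 3 = 2) {δ X : ℝ} (h0 : 0 < δ)
    (hδ : δ ≤ 1 / 10) (h1 : π ^ 2 * d / 27 = δ * X) (h2 : (n : ℝ) - d / 12 = X / (4 * δ)) :
    |c d n - 2 * δ / π * Real.cos (th d n) * Iarc X| ≤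
      (3 - d) * (π ^ 2 / (9 * δ) * Real.exp (ex 3 n δ)) := by
  have h := norm_Err_sub_le hd hd3 (by norm_num) n h0 hδ
  rw [Err_three hn h0, sub_zero, Err_eq h0 h1 h2, Complex.norm_real, Real.norm_eq_abs, abs_mul,
    abs_of_pos (by positivity : (0 : ℝ) < 2 * π)] at h
  exact le_of_mul_le_mul_left h (by positivity)

theorem key3' {d : ℝ} (hd3 : 3 ≤ d) (hd9 : d ≤ 9) {n : ℕ} (hn : n % 3 = 2) {δ X : ℝ} (h0 : 0 < δ)
    (hδ : δ ≤ 1 / 10) (h1 : π ^ 2 * d / 27 = δ * X) (h2 : (n : ℝ) - d / 12 = X / (4 * δ)) :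
    |c d n - 2 * δ / π * Real.cos (th d n) * Iarc X| ≤
      (d - 3) * (π ^ 2 / (9 * δ) * Real.exp (0.22 * d + X / 2)) := by
  have h := norm_Err_sub_le (by norm_num) hd3 hd9 n h0 hδ
  rw [Err_three hn h0, zero_sub, norm_neg, Err_eq h0 h1 h2, ex_eq h0 h1 h2, Complex.norm_real,
    Real.norm_eq_abs, abs_mul, abs_of_pos (by positivity : (0 : ℝ) < 2 * π)] at h
  exact le_of_mul_le_mul_left h (by positivity)

/-! ### the cosines -/

theorem cos_th0 {n : ℕ} (hn : n % 3 = 0) (d : ℝ) : Real.cos (th d n) = Real.cos (π * d / 18) := by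
  obtain ⟨m, hm⟩ : ∃ m, n = 3 * m := ⟨n / 3, by omega⟩
  have e : th d n = π * d / 18 + (m : ℤ) * (2 * π) := by
    rw [th, hm]; push_cast; ring
  rw [e, Real.cos_add_int_mul_two_pi]

theorem cos_th1 {n : ℕ} (hn : n % 3 = 1) (d : ℝ) :
    Real.cos (th d n) = -Real.cos (π / 3 - π * d / 18) := by
  obtain ⟨m, hm⟩ : ∃ m, n = 3 * m + 1 := ⟨n / 3, by omega⟩
  have e : th d n = π - (π / 3 - π * d / 18) + (m : ℤ) * (2 * π) := by
    rw [th, hm]; push_cast; ring
  rw [e, Real.cos_add_int_mul_two_pi, Real.cos_pi_sub]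

theorem cos_th2 {n : ℕ} (hn : n % 3 = 2) (d : ℝ) :
    Real.cos (th d n) = -Real.cos (π / 3 + π * d / 18) := by
  obtain ⟨m, hm⟩ : ∃ m, n = 3 * m + 2 := ⟨n / 3, by omega⟩
  have e : th d n = π / 3 + π * d / 18 + π + (m : ℤ) * (2 * π) := by
    rw [th, hm]; push_cast; ring
  rw [e, Real.cos_add_int_mul_two_pi, Real.cos_add_pi]

theorem cos_th2' {n : ℕ} (hn : n % 3 = 2) (d : ℝ) :
    Real.cos (th d n) = -Real.sin (π * (3 - d) / 18) := by
  rw [cos_th2 hn, ← Real.cos_pi_div_two_sub]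
  congr 2
  ring

/-! ### the choice of the radius -/

/-- the size parameter -/
noncomputable def XX (d : ℝ) (n : ℕ) : ℝ := 2 * √(π ^ 2 * d / 27 * (n - d / 12))

theorem XX_pos {d : ℝ} (hd : 0 < d) (hd9 : d ≤ 9) {n : ℕ} (hn : 1 ≤ n) : 0 < XX d n := by
  have h1 : (1 : ℝ) ≤ n := by exact_mod_cast hn
  have h2 : 0 < (n : ℝ) - d / 12 := by linarith
  unfold XX
  positivity

theorem XX_rel {d : ℝ} (hd : 0 < d) (hd9 : d ≤ 9) {n : ℕ} (hn : 1 ≤ n) :
    (n : ℝ) - d / 12 = XX d n / (4 * (π ^ 2 * d / 27 / XX d n)) := by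
  have h1 : (1 : ℝ) ≤ n := by exact_mod_cast hn
  have h2 : 0 < (n : ℝ) - d / 12 := by linarith
  have h3 := XX_pos hd hd9 hn
  have h4 : XX d n ^ 2 = 4 * (π ^ 2 * d / 27 * (n - d / 12)) := by
    rw [XX, mul_pow, Real.sq_sqrt (by positivity)]
    norm_num
  have hk : 0 < π ^ 2 * d / 27 := by positivity
  set κ := π ^ 2 * d / 27
  set X := XX d n
  have e : X / (4 * (κ / X)) = X ^ 2 / (4 * κ) := by
    field_simp
  rw [e, h4]
  field_simp

theorem XX_ge {d κ0 N X0 : ℝ} {n : ℕ} (hd9 : d ≤ 9) (hκ : κ0 ≤ π ^ 2 * d / 27)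
    (hκ0 : 0 ≤ κ0) (hN : N ≤ n) (hN1 : 1 ≤ N) (hX : X0 ^ 2 ≤ 4 * (κ0 * (N - d / 12)))
    (hX0 : 0 ≤ X0) : X0 ≤ XX d n := by
  unfold XX
  have h1 : X0 / 2 ≤ √(π ^ 2 * d / 27 * (n - d / 12)) := by
    apply Real.le_sqrt_of_sq_le
    have h2 : κ0 * (N - d / 12) ≤ π ^ 2 * d / 27 * (n - d / 12) :=
      mul_le_mul hκ (by linarith) (by linarith) (by linarith)
    nlinarith
  linarith

/-- the comparison function is increasing -/
theorem comp_mono {X0 X : ℝ} (h3 : 3 ≤ X0) (h : X0 ≤ X) :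
    Real.exp (X0 / 2) / (X0 * √X0) ≤ Real.exp (X / 2) / (X * √X) := by
  have hX0 : 0 < X0 := by linarith
  have hX : 0 < X := by linarith
  rw [div_le_div_iff₀ (by positivity) (by positivity)]
  have h1 : X ≤ X0 * Real.exp ((X - X0) / 3) := by
    have h2 := Real.add_one_le_exp ((X - X0) / X0)
    have h4 : (X - X0) / X0 ≤ (X - X0) / 3 :=
      div_le_div_of_nonneg_left (by linarith) (by norm_num) h3
    have h5 := Real.exp_le_exp.2 h4
    have h6 : X = X0 * ((X - X0) / X0 + 1) := by field_simp; ring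
    calc X = X0 * ((X - X0) / X0 + 1) := h6
      _ ≤ X0 * Real.exp ((X - X0) / 3) := mul_le_mul_of_nonneg_left (h2.trans h5) hX0.le
  have h7 : √X ≤ √X0 * Real.exp ((X - X0) / 6) := by
    rw [Real.sqrt_le_left (by positivity), mul_pow, Real.sq_sqrt hX0.le, ← Real.exp_nat_mul]
    refine h1.trans (le_of_eq ?_)
    congr 2
    push_cast
    ring
  have h8 : X * √X ≤ X0 * √X0 * Real.exp ((X - X0) / 2) := by
    calc X * √X ≤ (X0 * Real.exp ((X - X0) / 3)) * (√X0 * Real.exp ((X - X0) / 6)) :=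
          mul_le_mul h1 h7 (Real.sqrt_nonneg _) (by positivity)
      _ = X0 * √X0 * (Real.exp ((X - X0) / 3) * Real.exp ((X - X0) / 6)) := by ring
      _ = _ := by rw [← Real.exp_add]; congr 2; ring
  calc Real.exp (X0 / 2) * (X * √X) ≤ Real.exp (X0 / 2) * (X0 * √X0 * Real.exp ((X - X0) / 2)) :=
        mul_le_mul_of_nonneg_left h8 (Real.exp_pos _).le
    _ = (Real.exp (X0 / 2) * Real.exp ((X - X0) / 2)) * (X0 * √X0) := by ring
    _ = _ := by rw [← Real.exp_add]; congr 2; ring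

theorem c1502 : (1.502 : ℝ) < 2 * 2.36 / π := by
  rw [lt_div_iff₀ Real.pi_pos]
  nlinarith [Real.pi_lt_d4]

/-- the general sign criterion -/
theorem good_of {d : ℝ} (hd : 0 < d) (hd9 : d ≤ 9) {n : ℕ} (hn : 1 ≤ n) {q : ℝ}
    (hX : 9 ≤ XX d n) (hδ : π ^ 2 * d / 27 / XX d n ≤ 1 / 10) (hq0 : 0 < q)
    (h0 : n % 3 = 0 → q ≤ Real.cos (th d n)) (h1 : n % 3 = 1 → q ≤ -Real.cos (th d n))
    (h2 : n % 3 = 2 → (d < 3 → q ≤ -Real.cos (th d n)) ∧ (3 < d → q ≤ Real.cos (th d n)))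
    (hm : Real.exp (0.22 * d) ≤
      1.502 * q * (π ^ 2 * d / 27) * (Real.exp (XX d n / 2) / (XX d n * √(XX d n)))) :
    Good d n := by
  have hXp := XX_pos hd hd9 hn
  have hk : 0 < π ^ 2 * d / 27 := by positivity
  have r2 := XX_rel hd hd9 hn
  set X := XX d n with hXd
  set δ := π ^ 2 * d / 27 / X with hδd
  have hδ0 : 0 < δ := by positivity
  have r1 : π ^ 2 * d / 27 = δ * X := by rw [hδd]; field_simp
  have hkey := key hd.le hd9 hδ0 hδ r1 r2
  have hI := Iarc_ge hX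
  have hs : 0 < √X := Real.sqrt_pos.2 hXp
  have hpi := Real.pi_pos
  -- the main term
  have hmain : Real.exp (0.22 * d + X / 2) < 2 * δ / π * q * Iarc X := by
    have e1 : 1.502 * q * (π ^ 2 * d / 27) * (Real.exp (X / 2) / (X * √X)) * Real.exp (X / 2) =
        1.502 * δ * q * (Real.exp X / √X) := by
      have e2 : Real.exp X = Real.exp (X / 2) * Real.exp (X / 2) := by
        rw [← Real.exp_add]; congr 1; ring
      rw [e2, r1]
      field_simp
    have e3 : 1.502 * δ * q * (Real.exp X / √X) < 2 * δ / π * q * Iarc X := by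
      have e5 : 0 < δ * q * (Real.exp X / √X) := by
        have := Real.exp_pos X
        positivity
      calc 1.502 * δ * q * (Real.exp X / √X) = 1.502 * (δ * q * (Real.exp X / √X)) := by ring
        _ < 2 * 2.36 / π * (δ * q * (Real.exp X / √X)) := mul_lt_mul_of_pos_right c1502 e5
        _ = 2 * δ / π * q * (2.36 / √X * Real.exp X) := by ring
        _ ≤ _ := by
          refine mul_le_mul_of_nonneg_left hI ?_
          positivity
    rw [Real.exp_add]
    calc Real.exp (0.22 * d) * Real.exp (X / 2) ≤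
        1.502 * q * (π ^ 2 * d / 27) * (Real.exp (X / 2) / (X * √X)) * Real.exp (X / 2) :=
          mul_le_mul_of_nonneg_right hm (Real.exp_pos _).le
      _ = _ := e1
      _ < _ := e3
  have hIpos : 0 ≤ 2 * δ / π * Iarc X := by
    have : 0 ≤ Iarc X := le_trans (by positivity) hI
    positivity
  have hab := abs_le.1 hkey
  have neg : q ≤ -Real.cos (th d n) → c d n < 0 := by
    intro h
    have := mul_le_mul_of_nonneg_right h hIpos
    have e1 : q * (2 * δ / π * Iarc X) = 2 * δ / π * q * Iarc X := by ring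
    have e2 : -Real.cos (th d n) * (2 * δ / π * Iarc X) =
        -(2 * δ / π * Real.cos (th d n) * Iarc X) := by ring
    rw [e1, e2] at this
    linarith [hab.2]
  have pos : q ≤ Real.cos (th d n) → 0 < c d n := by
    intro h
    have := mul_le_mul_of_nonneg_right h hIpos
    have e1 : q * (2 * δ / π * Iarc X) = 2 * δ / π * q * Iarc X := by ring
    have e2 : Real.cos (th d n) * (2 * δ / π * Iarc X) =
        2 * δ / π * Real.cos (th d n) * Iarc X := by ring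
    rw [e1, e2] at this
    linarith [hab.1]
  exact ⟨fun h => pos (h0 h), fun h => neg (h1 h),
    fun h => ⟨fun h3 => neg ((h2 h).1 h3), fun h3 => pos ((h2 h).2 h3)⟩⟩

end Pool.Agent.KS6_41.BW
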