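import Pool.Agent.KS6_41.BW.Key

/-!
# Large coefficients
-/

set_option autoImplicit false

namespace Pool.Agent.KS6_41.BW

open Set
open scoped Real

theorem pi_sq_ge : (9.8696 : ℝ) ≤ π ^ 2 := by nlinarith [Real.pi_gt_d6]

theorem pi_sq_le : π ^ 2 ≤ (9.87 : ℝ) := by nlinarith [Real.pi_lt_d4, Real.pi_pos]

theorem sqrt3_half : √3 / 2 ≤ 0.86605 := by
  have : √3 ≤ 1.7321 := by
    rw [Real.sqrt_le_left (by norm_num)]; norm_num
  linarith

theorem cos_lower {y yb : ℝ} (h0 : 0 ≤ y) (h : y ≤ yb) :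
    1 / 2 * (1 - yb ^ 2 / 2) - 0.86605 * yb ≤ Real.cos (π / 3 + y) := by
  rw [Real.cos_add, Real.cos_pi_div_three, Real.sin_pi_div_three]
  have h1 := Real.one_sub_sq_div_two_le_cos (x := y)
  have h2 := Real.sin_le h0
  have h3 := sqrt3_half
  have h4 : √3 / 2 * Real.sin y ≤ 0.86605 * yb := by
    have : 0 ≤ √3 / 2 := by positivity
    calc √3 / 2 * Real.sin y ≤ √3 / 2 * y := mul_le_mul_of_nonneg_left h2 this
      _ ≤ 0.86605 * yb := mul_le_mul h3 h h0 (by norm_num)
  nlinarith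

theorem exp_le_of {x : ℝ} (h : x < 1) : Real.exp x ≤ 1 / (1 - x) := by
  have h1 := Real.add_one_le_exp (-x)
  rw [Real.exp_neg] at h1
  have h2 := Real.exp_pos x
  rw [le_div_iff₀ (by linarith)]
  calc Real.exp x * (1 - x) ≤ Real.exp x * (Real.exp x)⁻¹ :=
        mul_le_mul_of_nonneg_left (by linarith) h2.le
    _ = 1 := mul_inv_cancel₀ h2.ne'

theorem range_small {a b d κ0 X0 q0 E s0 N : ℝ} {n : ℕ} (ha : 0 < a) (hd : a ≤ d) (hdb : d ≤ b)
    (hb : b ≤ 1) (hκ0 : 0 < κ0) (hκ : κ0 ≤ 9.8696 * a / 27) (hN : N ≤ n) (hN1 : 1 ≤ N)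
    (hX : X0 ^ 2 ≤ 4 * (κ0 * (N - b / 12))) (hX0 : 9 ≤ X0) (hq0 : 0 < q0)
    (hq : q0 ≤ 1 / 2 * (1 - (3.1416 * b / 18) ^ 2 / 2) - 0.86605 * (3.1416 * b / 18))
    (hE : E ≤ Real.exp (X0 / 2)) (hs0 : 0 < s0) (hs : X0 ≤ s0 ^ 2)
    (hnum : 1 / (1 - 0.22 * b) ≤ 1.502 * q0 * κ0 * (E / (X0 * s0))) : Good d n := by
  have hd0 : 0 < d := by linarith
  have hd9 : d ≤ 9 := by linarith
  have hn : 1 ≤ n := by
    have : (1 : ℝ) ≤ n := by linarith
    exact_mod_cast this
  have hk : κ0 ≤ π ^ 2 * d / 27 := by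
    have := pi_sq_ge
    have h1 : 9.8696 * a ≤ π ^ 2 * d := mul_le_mul this hd ha.le (by positivity)
    linarith
  have hXX : X0 ≤ XX d n := by
    refine XX_ge hd9 hk hκ0.le hN hN1 (hX.trans ?_) (by linarith)
    have : κ0 * (N - b / 12) ≤ κ0 * (N - d / 12) :=
      mul_le_mul_of_nonneg_left (by linarith) hκ0.le
    linarith
  have hXp : 0 < XX d n := by linarith
  have hy0 : 0 ≤ π * d / 18 := by positivity
  have hyb : π * d / 18 ≤ 3.1416 * b / 18 := by
    have := Real.pi_lt_d4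
    have h1 : π * d ≤ 3.1416 * b := mul_le_mul this.le hdb hd0.le (by norm_num)
    linarith
  have hcos : q0 ≤ Real.cos (π / 3 + π * d / 18) := hq.trans (cos_lower hy0 hyb)
  have hypi : π * d / 18 ≤ π / 18 := by
    have : π * d ≤ π * 1 := mul_le_mul_of_nonneg_left (by linarith) Real.pi_pos.le
    linarith
  have hpi := Real.pi_pos
  refine good_of hd0 hd9 hn (q := q0) (by linarith) ?_ hq0 ?_ ?_ ?_ ?_
  · rw [div_le_iff₀ hXp]
    have := pi_sq_le
    have h2 : π ^ 2 * d ≤ 9.87 * 1 := mul_le_mul this (by linarith) hd0.le (by norm_num)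
    linarith
  · intro h
    rw [cos_th0 h]
    refine hcos.trans (Real.cos_le_cos_of_nonneg_of_le_pi hy0 (by linarith) (by linarith))
  · intro h
    rw [cos_th1 h, neg_neg]
    refine hcos.trans (Real.cos_le_cos_of_nonneg_of_le_pi (by linarith) (by linarith)
      (by linarith))
  · intro h
    refine ⟨fun _ => ?_, fun h3 => absurd h3 (by linarith)⟩
    rw [cos_th2 h, neg_neg]
    exact hcos
  · have h1 : Real.exp (0.22 * d) ≤ 1 / (1 - 0.22 * b) :=
      (Real.exp_le_exp.2 (by linarith : 0.22 * d ≤ 0.22 * b)).trans (exp_le_of (by linarith))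
    refine h1.trans (hnum.trans ?_)
    have h2 := comp_mono (by linarith : (3 : ℝ) ≤ X0) hXX
    have hX00 : 0 < X0 := by linarith
    have h3 : E / (X0 * s0) ≤ Real.exp (X0 / 2) / (X0 * √X0) := by
      have h4 : √X0 ≤ s0 := by
        rw [Real.sqrt_le_left hs0.le]; exact hs
      have h5 : 0 < √X0 := Real.sqrt_pos.2 hX00
      exact div_le_div₀ (Real.exp_pos _).le hE (by positivity)
        (mul_le_mul_of_nonneg_left h4 hX00.le)
    have h6 : 0 < Real.exp (XX d n / 2) / (XX d n * √(XX d n)) := by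
      have : 0 < √(XX d n) := Real.sqrt_pos.2 hXp
      positivity
    calc 1.502 * q0 * κ0 * (E / (X0 * s0)) ≤
        1.502 * q0 * κ0 * (Real.exp (XX d n / 2) / (XX d n * √(XX d n))) :=
          mul_le_mul_of_nonneg_left (h3.trans h2) (by positivity)
      _ ≤ _ := mul_le_mul_of_nonneg_right (mul_le_mul_of_nonneg_left hk (by positivity)) h6.le

/-- lower bounds for the exponential -/
theorem exp_lower {f E : ℝ} (m : ℕ) (hf : 0 ≤ f)
    (hE : E ≤ 2.71828 ^ m * (1 + f + f ^ 2 / 2 + f ^ 3 / 6 + f ^ 4 / 24)) :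
    E ≤ Real.exp (m + f) := by
  refine hE.trans ?_
  rw [Real.exp_add]
  have h1 : (2.71828 : ℝ) ^ m ≤ Real.exp m := by
    have : Real.exp (m : ℝ) = Real.exp 1 ^ m := by rw [← Real.exp_nat_mul, mul_one]
    rw [this]
    exact pow_le_pow_left₀ (by norm_num) (by linarith [Real.exp_one_gt_d9]) m
  have h2 : 1 + f + f ^ 2 / 2 + f ^ 3 / 6 + f ^ 4 / 24 ≤ Real.exp f := by
    have := Real.sum_le_exp_of_nonneg hf 5
    simp only [Finset.sum_range_succ, Finset.sum_range_zero, Nat.factorial] at this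
    norm_num at this
    linarith
  exact mul_le_mul h1 h2 (by positivity) (Real.exp_pos _).le

theorem large1 {d : ℝ} {n : ℕ} (h1 : 0.22799 ≤ d) (h2 : d ≤ 13 / 50) (hn : 566 ≤ n) : Good d n := by
  have hn' : (566 : ℝ) ≤ n := by exact_mod_cast hn
  refine range_small (a := 0.22799) (b := 13 / 50) (κ0 := 0.08333) (X0 := 13.72) (q0 := 0.46)
    (E := 950) (s0 := 3.7041) (N := 566) (by norm_num) h1 h2 (by norm_num) (by norm_num)
    (by norm_num) hn' (by norm_num) (by norm_num) (by norm_num) (by norm_num) (by norm_num) ?_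
    (by norm_num) (by norm_num) (by norm_num)
  have := exp_lower (f := 0.86) (E := 950) 6 (by norm_num) (by norm_num)
  norm_num at this ⊢
  exact this

theorem large2 {d : ℝ} {n : ℕ} (h1 : 13 / 50 ≤ d) (h2 : d ≤ 3 / 10) (hn : 476 ≤ n) : Good d n := by
  have hn' : (476 : ℝ) ≤ n := by exact_mod_cast hn
  refine range_small (a := 13 / 50) (b := 3 / 10) (κ0 := 0.09504) (X0 := 13.44) (q0 := 0.4539)
    (E := 825) (s0 := 3.6661) (N := 476) (by norm_num) h1 h2 (by norm_num) (by norm_num)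
    (by norm_num) hn' (by norm_num) (by norm_num) (by norm_num) (by norm_num) (by norm_num) ?_
    (by norm_num) (by norm_num) (by norm_num)
  have := exp_lower (f := 0.72) (E := 825) 6 (by norm_num) (by norm_num)
  norm_num at this ⊢
  exact this

theorem large3 {d : ℝ} {n : ℕ} (h1 : 3 / 10 ≤ d) (h2 : d ≤ 2 / 5) (hn : 401 ≤ n) : Good d n := by
  have hn' : (401 : ℝ) ≤ n := by exact_mod_cast hn
  refine range_small (a := 3 / 10) (b := 2 / 5) (κ0 := 0.10966) (X0 := 13.26) (q0 := 0.438)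
    (E := 750) (s0 := 3.6415) (N := 401) (by norm_num) h1 h2 (by norm_num) (by norm_num)
    (by norm_num) hn' (by norm_num) (by norm_num) (by norm_num) (by norm_num) (by norm_num) ?_
    (by norm_num) (by norm_num) (by norm_num)
  have := exp_lower (f := 0.63) (E := 750) 6 (by norm_num) (by norm_num)
  norm_num at this ⊢
  exact this

theorem large4 {d : ℝ} {n : ℕ} (h1 : 2 / 5 ≤ d) (h2 : d ≤ 1 / 2) (hn : 276 ≤ n) : Good d n := by
  have hn' : (276 : ℝ) ≤ n := by exact_mod_cast hn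
  refine range_small (a := 2 / 5) (b := 1 / 2) (κ0 := 0.1462) (X0 := 12.7) (q0 := 0.422)
    (E := 565) (s0 := 3.564) (N := 276) (by norm_num) h1 h2 (by norm_num) (by norm_num)
    (by norm_num) hn' (by norm_num) (by norm_num) (by norm_num) (by norm_num) (by norm_num) ?_
    (by norm_num) (by norm_num) (by norm_num)
  have := exp_lower (f := 0.35) (E := 565) 6 (by norm_num) (by norm_num)
  norm_num at this ⊢
  exact this

theorem large5 {d : ℝ} {n : ℕ} (h1 : 1 / 2 ≤ d) (h2 : d ≤ 7 / 10) (hn : 213 ≤ n) : Good d n := by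
  have hn' : (213 : ℝ) ≤ n := by exact_mod_cast hn
  refine range_small (a := 1 / 2) (b := 7 / 10) (κ0 := 0.18277) (X0 := 12.46) (q0 := 0.39)
    (E := 500) (s0 := 3.53) (N := 213) (by norm_num) h1 h2 (by norm_num) (by norm_num)
    (by norm_num) hn' (by norm_num) (by norm_num) (by norm_num) (by norm_num) (by norm_num) ?_
    (by norm_num) (by norm_num) (by norm_num)
  have := exp_lower (f := 0.23) (E := 500) 6 (by norm_num) (by norm_num)
  norm_num at this ⊢
  exact this

theorem large6 {d : ℝ} {n : ℕ} (h1 : 7 / 10 ≤ d) (h2 : d ≤ 1) (hn : 146 ≤ n) : Good d n := by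
  have hn' : (146 : ℝ) ≤ n := by exact_mod_cast hn
  refine range_small (a := 7 / 10) (b := 1) (κ0 := 0.25587) (X0 := 12.22) (q0 := 0.341)
    (E := 445) (s0 := 3.496) (N := 146) (by norm_num) h1 h2 (by norm_num) (by norm_num)
    (by norm_num) hn' (by norm_num) (by norm_num) (by norm_num) (by norm_num) (by norm_num) ?_
    (by norm_num) (by norm_num) (by norm_num)
  have := exp_lower (f := 0.11) (E := 445) 6 (by norm_num) (by norm_num)
  norm_num at this ⊢
  exact this

/-! ### the general range -/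

theorem delta_le {d : ℝ} {n : ℕ} (hd : 0 < d) (hX : 0 < XX d n)
    (h : 25 * (π ^ 2 * d / 27) ≤ n - d / 12) : π ^ 2 * d / 27 / XX d n ≤ 1 / 10 := by
  have hk : 0 < π ^ 2 * d / 27 := by positivity
  rw [div_le_iff₀ hX]
  have h1 : 5 * (π ^ 2 * d / 27) ≤ √(π ^ 2 * d / 27 * (n - d / 12)) := by
    apply Real.le_sqrt_of_sq_le
    nlinarith
  unfold XX
  linarith

theorem lin_le_sin {x : ℝ} (h0 : 0 ≤ x) (h9 : x ≤ 9) : x / 9 ≤ Real.sin (π * x / 18) := by
  have hpi := Real.pi_pos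
  have h := Real.mul_le_sin (x := π * x / 18) (by positivity) (by nlinarith)
  have e : 2 / π * (π * x / 18) = x / 9 := by field_simp; ring
  rwa [e] at h

theorem res0 {d : ℝ} {n : ℕ} (h0 : 0 ≤ d) (h9 : d ≤ 9) (hn : n % 3 = 0) :
    (9 - d) / 9 ≤ Real.cos (th d n) := by
  rw [cos_th0 hn, ← Real.sin_pi_div_two_sub]
  have h := lin_le_sin (x := 9 - d) (by linarith) (by linarith)
  have e : π / 2 - π * d / 18 = π * (9 - d) / 18 := by ring
  rwa [e]

theorem res1 {d : ℝ} {n : ℕ} (h0 : 0 ≤ d) (h9 : d ≤ 9) (hn : n % 3 = 1) :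
    1 / 2 ≤ -Real.cos (th d n) := by
  have hpi := Real.pi_pos
  rw [cos_th1 hn, neg_neg, ← Real.cos_pi_div_three, ← Real.cos_abs (π / 3 - π * d / 18)]
  refine Real.cos_le_cos_of_nonneg_of_le_pi (abs_nonneg _) (by linarith) ?_
  rw [abs_le]
  constructor <;> nlinarith

theorem res2 {d : ℝ} {n : ℕ} (h0 : 0 ≤ d) (h3 : d ≤ 3) (hn : n % 3 = 2) :
    (3 - d) / 9 ≤ -Real.cos (th d n) := by
  rw [cos_th2' hn, neg_neg]
  exact lin_le_sin (by linarith) (by linarith)

theorem cos_th2'' {n : ℕ} (hn : n % 3 = 2) (d : ℝ) :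
    Real.cos (th d n) = Real.sin (π * (d - 3) / 18) := by
  rw [cos_th2' hn, ← Real.sin_neg]
  congr 1
  ring

theorem res2' {d : ℝ} {n : ℕ} (h3 : 3 ≤ d) (h9 : d ≤ 9) (hn : n % 3 = 2) :
    (d - 3) / 9 ≤ Real.cos (th d n) := by
  rw [cos_th2'' hn]
  exact lin_le_sin (by linarith) (by linarith)

/-- the general range, with the residue classes to be treated -/
theorem range_gen {a b d κ0 X0 q0 E s0 N B : ℝ} {n : ℕ} (ha : 0 < a) (hd : a ≤ d) (hdb : d ≤ b)
    (hb : b ≤ 9) (hκ0 : 0 < κ0) (hκ : κ0 ≤ 9.8696 * a / 27) (hN : N ≤ n)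
    (hN1 : 25 * (9.87 * b / 27) ≤ N - b / 12) (hN2 : 1 ≤ N)
    (hX : X0 ^ 2 ≤ 4 * (κ0 * (N - b / 12))) (hX0 : 9 ≤ X0) (hq0 : 0 < q0)
    (hq1 : q0 ≤ 1 / 2) (hq2 : q0 ≤ (9 - b) / 9)
    (hq : n % 3 = 2 → (d < 3 → q0 ≤ (3 - d) / 9) ∧ (3 < d → q0 ≤ (d - 3) / 9))
    (hE : E ≤ Real.exp (X0 / 2)) (hs0 : 0 < s0) (hs : X0 ≤ s0 ^ 2)
    (hB : Real.exp (0.22 * b) ≤ B)
    (hnum : B ≤ 1.502 * q0 * κ0 * (E / (X0 * s0))) : Good d n := by
  have hd0 : 0 < d := by linarith
  have hd9 : d ≤ 9 := by linarith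
  have hn : 1 ≤ n := by
    have : (1 : ℝ) ≤ n := by linarith
    exact_mod_cast this
  have hk : κ0 ≤ π ^ 2 * d / 27 := by
    have := pi_sq_ge
    have h1 : 9.8696 * a ≤ π ^ 2 * d := mul_le_mul this hd ha.le (by positivity)
    linarith
  have hk2 : π ^ 2 * d / 27 ≤ 9.87 * b / 27 := by
    have := pi_sq_le
    have h1 : π ^ 2 * d ≤ 9.87 * b := mul_le_mul this hdb hd0.le (by norm_num)
    linarith
  have hXX : X0 ≤ XX d n := by
    refine XX_ge hd9 hk hκ0.le hN hN2 (hX.trans ?_) (by linarith)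
    have : κ0 * (N - b / 12) ≤ κ0 * (N - d / 12) :=
      mul_le_mul_of_nonneg_left (by linarith) hκ0.le
    linarith
  have hXp : 0 < XX d n := by linarith
  refine good_of hd0 hd9 hn (q := q0) (by linarith) (delta_le hd0 hXp (by linarith)) hq0
    (fun h => le_trans (hq2.trans (by linarith)) (res0 hd0.le hd9 h))
    (fun h => hq1.trans (res1 hd0.le hd9 h))
    (fun h => ⟨fun h3 => ((hq h).1 h3).trans (res2 hd0.le h3.le h),
      fun h3 => ((hq h).2 h3).trans (res2' h3.le hd9 h)⟩) ?_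
  have h1 : Real.exp (0.22 * d) ≤ B :=
    (Real.exp_le_exp.2 (by linarith : 0.22 * d ≤ 0.22 * b)).trans hB
  refine h1.trans (hnum.trans ?_)
  have h2 := comp_mono (by linarith : (3 : ℝ) ≤ X0) hXX
  have hX00 : 0 < X0 := by linarith
  have h3 : E / (X0 * s0) ≤ Real.exp (X0 / 2) / (X0 * √X0) := by
    have h4 : √X0 ≤ s0 := by
      rw [Real.sqrt_le_left hs0.le]; exact hs
    have h5 : 0 < √X0 := Real.sqrt_pos.2 hX00
    exact div_le_div₀ (Real.exp_pos _).le hE (by positivity)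
      (mul_le_mul_of_nonneg_left h4 hX00.le)
  have h6 : 0 < Real.exp (XX d n / 2) / (XX d n * √(XX d n)) := by
    have : 0 < √(XX d n) := Real.sqrt_pos.2 hXp
    positivity
  calc 1.502 * q0 * κ0 * (E / (X0 * s0)) ≤
      1.502 * q0 * κ0 * (Real.exp (XX d n / 2) / (XX d n * √(XX d n))) :=
        mul_le_mul_of_nonneg_left (h3.trans h2) (by positivity)
    _ ≤ _ := mul_le_mul_of_nonneg_right (mul_le_mul_of_nonneg_left hk (by positivity)) h6.le

theorem exp_sq_le {x : ℝ} (h : x < 1) : Real.exp (2 * x) ≤ (1 / (1 - x)) ^ 2 := by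
  have : Real.exp (2 * x) = Real.exp x ^ 2 := by rw [← Real.exp_nat_mul]; norm_num
  rw [this]
  exact pow_le_pow_left₀ (Real.exp_pos _).le (exp_le_of h) 2

theorem large7 {d : ℝ} {n : ℕ} (h1 : 1 ≤ d) (h2 : d ≤ 1.2) (hn : 121 ≤ n) : Good d n := by
  have hn' : (121 : ℝ) ≤ n := by exact_mod_cast hn
  refine range_gen (a := 1) (b := 1.2) (κ0 := 0.3655) (X0 := 13.29) (q0 := 0.2)
    (E := 765) (s0 := 3.646) (N := 121) (B := 1.36) (by norm_num) h1 h2 (by norm_num)
    (by norm_num) (by norm_num) hn' (by norm_num) (by norm_num) (by norm_num) (by norm_num)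
    (by norm_num) (by norm_num) (by norm_num)
    (fun _ => ⟨fun _ => by linarith, fun h => absurd h (by linarith)⟩) ?_
    (by norm_num) (by norm_num) ?_ (by norm_num)
  · have := exp_lower (f := 0.645) (E := 765) 6 (by norm_num) (by norm_num)
    norm_num at this ⊢
    exact this
  · refine (exp_le_of (by norm_num)).trans (by norm_num)

theorem large8 {d : ℝ} {n : ℕ} (h1 : 1.2 ≤ d) (h2 : d ≤ 2) (hn : 121 ≤ n) : Good d n := by
  have hn' : (121 : ℝ) ≤ n := by exact_mod_cast hn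
  refine range_gen (a := 1.2) (b := 2) (κ0 := 0.4386) (X0 := 14.55) (q0 := 1 / 9)
    (E := 1440) (s0 := 3.816) (N := 121) (B := 1.65) (by norm_num) h1 h2 (by norm_num)
    (by norm_num) (by norm_num) hn' (by norm_num) (by norm_num) (by norm_num) (by norm_num)
    (by norm_num) (by norm_num) (by norm_num)
    (fun _ => ⟨fun _ => by linarith, fun h => absurd h (by linarith)⟩) ?_
    (by norm_num) (by norm_num) ?_ (by norm_num)
  · have := exp_lower (f := 0.275) (E := 1440) 7 (by norm_num) (by norm_num)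
    norm_num at this ⊢
    exact this
  · have := exp_sq_le (x := 0.22) (by norm_num)
    norm_num at this ⊢
    linarith

theorem exp_066 : Real.exp (0.22 * 3.3) ≤ 2.5 := by
  have := exp_sq_le (x := 0.363) (by norm_num)
  norm_num at this ⊢
  linarith

theorem large9 {d : ℝ} {n : ℕ} (h1 : 2 ≤ d) (h2 : d ≤ 2.7) (hn : 121 ≤ n) : Good d n := by
  have hn' : (121 : ℝ) ≤ n := by exact_mod_cast hn
  refine range_gen (a := 2) (b := 2.7) (κ0 := 0.731) (X0 := 18.78) (q0 := 0.0333)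
    (E := 8100) (s0 := 4.334) (N := 121) (B := 2.5) (by norm_num) h1 h2 (by norm_num)
    (by norm_num) (by norm_num) hn' (by norm_num) (by norm_num) (by norm_num) (by norm_num)
    (by norm_num) (by norm_num) (by norm_num)
    (fun _ => ⟨fun _ => by linarith, fun h => absurd h (by linarith)⟩) ?_
    (by norm_num) (by norm_num) ?_ (by norm_num)
  · have := exp_lower (f := 0.39) (E := 8100) 9 (by norm_num) (by norm_num)
    norm_num at this ⊢
    exact this
  · refine le_trans (Real.exp_le_exp.2 (by norm_num)) exp_066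

theorem large10 {d : ℝ} {n : ℕ} (h1 : 2.7 ≤ d) (h2 : d ≤ 3.3) (hn : 121 ≤ n)
    (hm : n % 3 ≠ 2) : Good d n := by
  have hn' : (121 : ℝ) ≤ n := by exact_mod_cast hn
  refine range_gen (a := 2.7) (b := 3.3) (κ0 := 0.731) (X0 := 18.77) (q0 := 1 / 2)
    (E := 8100) (s0 := 4.334) (N := 121) (B := 2.5) (by norm_num) h1 h2 (by norm_num)
    (by norm_num) (by norm_num) hn' (by norm_num) (by norm_num) (by norm_num) (by norm_num)
    (by norm_num) (by norm_num) (by norm_num)
    (fun h => absurd h hm) ?_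
    (by norm_num) (by norm_num) exp_066 (by norm_num)
  · have := exp_lower (f := 0.385) (E := 8100) 9 (by norm_num) (by norm_num)
    norm_num at this ⊢
    exact this

theorem large11 {d : ℝ} {n : ℕ} (h1 : 3.3 ≤ d) (h2 : d ≤ 8.78) (hn : 91 ≤ n) : Good d n := by
  have hn' : (91 : ℝ) ≤ n := by exact_mod_cast hn
  refine range_gen (a := 3.3) (b := 8.78) (κ0 := 1.206) (X0 := 20.86) (q0 := 0.024)
    (E := 30000) (s0 := 4.568) (N := 91) (B := 7.4) (by norm_num) h1 h2 (by norm_num)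
    (by norm_num) (by norm_num) hn' (by norm_num) (by norm_num) (by norm_num) (by norm_num)
    (by norm_num) (by norm_num) (by norm_num)
    (fun _ => ⟨fun h => absurd h (by linarith), fun _ => by linarith⟩) ?_
    (by norm_num) (by norm_num) ?_ (by norm_num)
  · have := exp_lower (f := 0.43) (E := 30000) 10 (by norm_num) (by norm_num)
    norm_num at this ⊢
    exact this
  · have h3 : Real.exp (0.22 * 8.78) ≤ Real.exp 1 ^ 2 := by
      rw [← Real.exp_nat_mul]
      exact Real.exp_le_exp.2 (by norm_num)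
    have h4 := Real.exp_one_lt_d9
    have h5 : Real.exp 1 ^ 2 ≤ 2.72 ^ 2 :=
      pow_le_pow_left₀ (Real.exp_pos _).le (by linarith) 2
    linarith

theorem sin_lower {x : ℝ} (h0 : 0 ≤ x) (h1 : x ≤ 1) : 0.1727 * x ≤ Real.sin (π * x / 18) := by
  rcases h0.eq_or_lt with rfl | hx
  · simp
  have hpi := Real.pi_gt_d4
  have hpi2 := Real.pi_lt_d4
  have hy0 : 0 < π * x / 18 := by positivity
  have hy1 : π * x / 18 ≤ 0.18 := by nlinarith
  have h2 := Real.sin_gt_sub_cube hy0
  set y := π * x / 18 with hy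
  have h3 : 0.99 * y ≤ y - y ^ 3 / 6 := by
    have : y ^ 2 ≤ 0.18 ^ 2 := pow_le_pow_left₀ hy0.le hy1 2
    nlinarith
  have h4 : 0.1727 * x ≤ 0.99 * y := by
    rw [hy]
    nlinarith
  linarith

/-- the comparison near `3` -/
theorem near3_comp {X : ℝ} (hX : 21.8 ≤ X) :
    9.16 * (X ^ 2 * √X) ≤ Real.exp (0.472 * X) := by
  have hX0 : 0 < X := by linarith
  have h1 : X ≤ 21.8 * Real.exp ((X - 21.8) / 20) := by
    have h2 := Real.add_one_le_exp ((X - 21.8) / 20)
    nlinarith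
  have h7 : √X ≤ 4.67 * Real.exp ((X - 21.8) / 40) := by
    rw [Real.sqrt_le_left (by positivity), mul_pow, ← Real.exp_nat_mul]
    have e : ((2 : ℕ) : ℝ) * ((X - 21.8) / 40) = (X - 21.8) / 20 := by push_cast; ring
    rw [e]
    refine h1.trans ?_
    have := Real.exp_pos ((X - 21.8) / 20)
    nlinarith
  have h2 : X ^ 2 ≤ 21.8 ^ 2 * Real.exp ((X - 21.8) / 10) := by
    have := pow_le_pow_left₀ hX0.le h1 2
    rw [mul_pow, ← Real.exp_nat_mul] at this
    refine this.trans (le_of_eq ?_)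
    congr 2
    push_cast
    ring
  have h8 : X ^ 2 * √X ≤ 21.8 ^ 2 * 4.67 * Real.exp ((X - 21.8) / 8) := by
    calc X ^ 2 * √X ≤ (21.8 ^ 2 * Real.exp ((X - 21.8) / 10)) *
        (4.67 * Real.exp ((X - 21.8) / 40)) := mul_le_mul h2 h7 (Real.sqrt_nonneg _) (by positivity)
      _ = 21.8 ^ 2 * 4.67 * (Real.exp ((X - 21.8) / 10) * Real.exp ((X - 21.8) / 40)) := by ring
      _ = _ := by rw [← Real.exp_add]; congr 2; ring
  have h9 : (29000 : ℝ) ≤ Real.exp (0.472 * 21.8) := by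
    have := exp_lower (f := 0.2896) (E := 29000) 10 (by norm_num) (by norm_num)
    norm_num at this ⊢
    exact this
  have h10 : Real.exp (0.472 * X) = Real.exp (0.472 * 21.8) * Real.exp (0.472 * (X - 21.8)) := by
    rw [← Real.exp_add]; congr 1; ring
  have h11 : Real.exp ((X - 21.8) / 8) ≤ Real.exp (0.472 * (X - 21.8)) :=
    Real.exp_le_exp.2 (by linarith)
  rw [h10]
  calc 9.16 * (X ^ 2 * √X) ≤ 9.16 * (21.8 ^ 2 * 4.67 * Real.exp ((X - 21.8) / 8)) := by linarith
    _ ≤ 29000 * Real.exp ((X - 21.8) / 8) := by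
      have := Real.exp_pos ((X - 21.8) / 8)
      nlinarith
    _ ≤ Real.exp (0.472 * 21.8) * Real.exp (0.472 * (X - 21.8)) :=
      mul_le_mul h9 h11 (Real.exp_pos _).le (Real.exp_pos _).le

/-- the error near `3` is smaller than the main term -/
theorem near3_main {δ X T : ℝ} (hX : 21.8 ≤ X) (hδ : 0.98696 / X ≤ δ)
    (hT : T ≤ 1.1112 * X * (2.11 * Real.exp (0.528 * X))) :
    T < 2 * δ / π * 0.1727 * Iarc X := by
  have hXp : 0 < X := by linarith
  have hδ0 : 0 < δ := lt_of_lt_of_le (by positivity) hδ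
  have hI := Iarc_ge (by linarith : (9 : ℝ) ≤ X)
  have hpi := Real.pi_pos
  have hsX : 0 < √X := Real.sqrt_pos.2 hXp
  have b3 := near3_comp hX
  have b5 : Real.exp X = Real.exp (0.528 * X) * Real.exp (0.472 * X) := by
    rw [← Real.exp_add]; congr 1; ring
  have b6 : (0 : ℝ) < Real.exp (0.528 * X) := Real.exp_pos _
  have e3 : T ≤ 1.502 * δ * 0.1727 * (Real.exp X / √X) := by
    calc T ≤ (2.344632 * X) * Real.exp (0.528 * X) := by linarith
      _ ≤ (1.502 * (0.98696 / X) * 0.1727 * (9.16 * (X ^ 2 * √X) / √X)) *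
          Real.exp (0.528 * X) := by
        refine mul_le_mul_of_nonneg_right ?_ b6.le
        have : 1.502 * (0.98696 / X) * 0.1727 * (9.16 * (X ^ 2 * √X) / √X) =
            (1.502 * 0.98696 * 0.1727 * 9.16) * X := by
          field_simp
        rw [this]
        exact mul_le_mul_of_nonneg_right (by norm_num) hXp.le
      _ ≤ (1.502 * δ * 0.1727 * (Real.exp (0.472 * X) / √X)) * Real.exp (0.528 * X) := by
        gcongr
      _ = _ := by rw [b5]; ring
  refine e3.trans_lt ?_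
  have e5 : 0 < δ * 0.1727 * (Real.exp X / √X) := by
    have := Real.exp_pos X
    positivity
  calc 1.502 * δ * 0.1727 * (Real.exp X / √X) = 1.502 * (δ * 0.1727 * (Real.exp X / √X)) := by
        ring
    _ < 2 * 2.36 / π * (δ * 0.1727 * (Real.exp X / √X)) := mul_lt_mul_of_pos_right c1502 e5
    _ = 2 * δ / π * 0.1727 * (2.36 / √X * Real.exp X) := by ring
    _ ≤ _ := by
      refine mul_le_mul_of_nonneg_left hI ?_
      positivity

theorem near3_facts {d : ℝ} {n : ℕ} (h2 : 2.7 ≤ d) (h3 : d ≤ 3.3) (hn : 121 ≤ n) :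
    21.8 ≤ XX d n ∧ 0.98696 ≤ π ^ 2 * d / 27 ∧ π ^ 2 * d / 27 / XX d n ≤ 1 / 10 := by
  have hn' : (121 : ℝ) ≤ n := by exact_mod_cast hn
  have hk : (0.98696 : ℝ) ≤ π ^ 2 * d / 27 := by
    have := pi_sq_ge
    have h1 : (9.8696 : ℝ) * 2.7 ≤ π ^ 2 * d := mul_le_mul this h2 (by norm_num) (by positivity)
    linarith
  have hX : (21.8 : ℝ) ≤ XX d n := by
    refine XX_ge (by linarith) hk (by norm_num) hn' (by norm_num) ?_ (by norm_num)
    nlinarith
  refine ⟨hX, hk, ?_⟩
  rw [div_le_iff₀ (by linarith)]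
  have := pi_sq_le
  have h2 : π ^ 2 * d ≤ 9.87 * 3.3 := mul_le_mul this h3 (by linarith) (by norm_num)
  linarith

theorem near3_low {d : ℝ} {n : ℕ} (h2 : 2.7 ≤ d) (h3 : d < 3) (hn : 121 ≤ n) (hm : n % 3 = 2) :
    c d n < 0 := by
  obtain ⟨hX, hk, hδ⟩ := near3_facts h2 (by linarith) hn
  have hd0 : 0 < d := by linarith
  have r2 := XX_rel hd0 (by linarith) (by omega : 1 ≤ n)
  set X := XX d n with hXd
  have hXp : 0 < X := by linarith
  set δ := π ^ 2 * d / 27 / X with hδd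
  have hkp : 0 < π ^ 2 * d / 27 := by positivity
  have hδ0 : 0 < δ := by positivity
  have r1 : π ^ 2 * d / 27 = δ * X := by rw [hδd]; field_simp
  have hkey := key3 hd0.le h3.le hm hδ0 hδ r1 r2
  have hs := sin_lower (x := 3 - d) (by linarith) (by linarith)
  have hpi := Real.pi_pos
  -- the size of the error
  have e1 : π ^ 2 / (9 * δ) = 3 * X / d := by
    have : δ * X * 27 = π ^ 2 * d := by linarith
    rw [div_eq_div_iff (by positivity) (by positivity)]
    linarith
  have e2 : ex 3 n δ ≤ 0.66 + 0.528 * X := by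
    unfold ex
    have a1 : 3 * (π ^ 2 / (108 * δ)) = 3 * X / d / 4 := by
      rw [← e1]; field_simp; norm_num
    have a2 : (n - d / 12) * δ = X / 4 := by rw [r2]; field_simp
    have a3 : 3 * X / d ≤ 3 * X / 2.7 := div_le_div_of_nonneg_left (by positivity) (by norm_num) h2
    have a4 : d / 12 * δ ≤ 1 / 4 * δ := mul_le_mul_of_nonneg_right (by linarith) hδ0.le
    have a5 : 3 * X / 2.7 / 4 + X / 4 ≤ 0.528 * X := by
      have : 3 * X / 2.7 / 4 + X / 4 = (3 / 2.7 / 4 + 1 / 4) * X := by ring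
      rw [this]
      exact mul_le_mul_of_nonneg_right (by norm_num) hXp.le
    linarith
  have b1 : Real.exp (ex 3 n δ) ≤ 2.11 * Real.exp (0.528 * X) := by
    refine (Real.exp_le_exp.2 e2).trans ?_
    rw [Real.exp_add]
    refine mul_le_mul_of_nonneg_right ?_ (Real.exp_pos _).le
    have : Real.exp 0.66 = Real.exp 0.22 ^ 3 := by rw [← Real.exp_nat_mul]; norm_num
    rw [this]
    have h5 := exp_le_of (x := (0.22 : ℝ)) (by norm_num)
    calc Real.exp 0.22 ^ 3 ≤ (1 / (1 - 0.22)) ^ 3 :=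
          pow_le_pow_left₀ (Real.exp_pos _).le h5 3
      _ ≤ 2.11 := by norm_num
  have b2 : π ^ 2 / (9 * δ) ≤ 1.1112 * X := by
    rw [e1, div_le_iff₀ hd0]
    nlinarith
  have hmain := near3_main hX (div_le_div_of_nonneg_right hk hXp.le)
    (mul_le_mul b2 b1 (Real.exp_pos _).le (by positivity))
  rw [← hδd] at hmain
  have hI := Iarc_ge (by linarith : (9 : ℝ) ≤ X)
  have hIpos : 0 ≤ 2 * δ / π * Iarc X := by
    have : 0 ≤ Iarc X := le_trans (by positivity) hI
    positivity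
  have hab := (abs_le.1 hkey).2
  rw [cos_th2' hm] at hab
  have h6 := mul_le_mul_of_nonneg_right hs hIpos
  have h7 := mul_lt_mul_of_pos_left hmain (by linarith : 0 < 3 - d)
  have h8 : (3 - d) * (2 * δ / π * 0.1727 * Iarc X) = 0.1727 * (3 - d) * (2 * δ / π * Iarc X) := by
    ring
  have h9 : 2 * δ / π * -Real.sin (π * (3 - d) / 18) * Iarc X =
      -(Real.sin (π * (3 - d) / 18) * (2 * δ / π * Iarc X)) := by ring
  linarith

theorem near3_high {d : ℝ} {n : ℕ} (h2 : 3 < d) (h3 : d ≤ 3.3) (hn : 121 ≤ n) (hm : n % 3 = 2) :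
    0 < c d n := by
  obtain ⟨hX, hk, hδ⟩ := near3_facts (by linarith) h3 hn
  have hd0 : 0 < d := by linarith
  have r2 := XX_rel hd0 (by linarith) (by omega : 1 ≤ n)
  set X := XX d n with hXd
  have hXp : 0 < X := by linarith
  set δ := π ^ 2 * d / 27 / X with hδd
  have hkp : 0 < π ^ 2 * d / 27 := by positivity
  have hδ0 : 0 < δ := by positivity
  have r1 : π ^ 2 * d / 27 = δ * X := by rw [hδd]; field_simp
  have hkey := key3' h2.le (by linarith) hm hδ0 hδ r1 r2
  have hs := sin_lower (x := d - 3) (by linarith) (by linarith)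
  have hpi := Real.pi_pos
  have e1 : π ^ 2 / (9 * δ) = 3 * X / d := by
    have : δ * X * 27 = π ^ 2 * d := by linarith
    rw [div_eq_div_iff (by positivity) (by positivity)]
    linarith
  have b1 : Real.exp (0.22 * d + X / 2) ≤ 2.11 * Real.exp (0.528 * X) := by
    have c1 : Real.exp (0.22 * d) ≤ 2.5 :=
      (Real.exp_le_exp.2 (by linarith)).trans exp_066
    have c2 : (1.6 : ℝ) ≤ Real.exp (0.028 * X) := by
      have := Real.add_one_le_exp (0.028 * X)
      linarith
    have c3 : Real.exp (0.528 * X) = Real.exp (0.028 * X) * Real.exp (X / 2) := by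
      rw [← Real.exp_add]; congr 1; ring
    rw [Real.exp_add, c3]
    have c4 := Real.exp_pos (X / 2)
    have c5 : (2.5 : ℝ) ≤ 2.11 * Real.exp (0.028 * X) := by linarith
    calc Real.exp (0.22 * d) * Real.exp (X / 2) ≤
        (2.11 * Real.exp (0.028 * X)) * Real.exp (X / 2) :=
          mul_le_mul_of_nonneg_right (c1.trans c5) c4.le
      _ = _ := by ring
  have b2 : π ^ 2 / (9 * δ) ≤ 1.1112 * X := by
    rw [e1, div_le_iff₀ hd0]
    nlinarith
  have hmain := near3_main hX (div_le_div_of_nonneg_right hk hXp.le)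
    (mul_le_mul b2 b1 (Real.exp_pos _).le (by positivity))
  rw [← hδd] at hmain
  have hI := Iarc_ge (by linarith : (9 : ℝ) ≤ X)
  have hIpos : 0 ≤ 2 * δ / π * Iarc X := by
    have : 0 ≤ Iarc X := le_trans (by positivity) hI
    positivity
  have hab := (abs_le.1 hkey).1
  rw [cos_th2'' hm] at hab
  have h6 := mul_le_mul_of_nonneg_right hs hIpos
  have h7 := mul_lt_mul_of_pos_left hmain (by linarith : 0 < d - 3)
  have h8 : (d - 3) * (2 * δ / π * 0.1727 * Iarc X) = 0.1727 * (d - 3) * (2 * δ / π * Iarc X) := by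
    ring
  have h9 : 2 * δ / π * Real.sin (π * (d - 3) / 18) * Iarc X =
      (Real.sin (π * (d - 3) / 18) * (2 * δ / π * Iarc X)) := by ring
  linarith

theorem large12 {d : ℝ} {n : ℕ} (h2 : 2.7 ≤ d) (h3 : d ≤ 3.3) (hn : 121 ≤ n) : Good d n := by
  by_cases hm : n % 3 = 2
  · exact ⟨fun h => by omega, fun h => by omega,
      fun _ => ⟨fun h => near3_low h2 h hn hm, fun h => near3_high h h3 hn hm⟩⟩
  · exact large10 h2 h3 hn hm

end Pool.Agent.KS6_41.BW
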