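import Pool.Agent.KS6_41.BW.Defs

/-!
# The first coefficients
-/

set_option autoImplicit false

namespace Pool.Agent.KS6_41.BW

theorem sg_one : sg 1 = 1 := by decide
theorem sg_two : sg 2 = 3 := by decide
theorem sg_three : sg 3 = 1 := by decide
theorem sg_four : sg 4 = 7 := by decide
theorem sg_five : sg 5 = 6 := by decide

theorem c_0 (d : ℝ) : c d 0 = 1 := by rw [c]

theorem c_1 (d : ℝ) : c d 1 = -d := by
  rw [c, Fin.sum_univ_succ]
  simp only [Fin.sum_univ_zero, Fin.val_zero, zero_add, Nat.sub_zero, sg_one, c_0]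
  norm_num

theorem c_2 (d : ℝ) : c d 2 = d * (d - 3) / 2 := by
  rw [c, Fin.sum_univ_succ, Fin.sum_univ_succ]
  simp only [Fin.sum_univ_zero, Fin.val_zero, Fin.val_succ, zero_add, Nat.sub_zero, sg_one,
    show 1 + 1 = 2 from rfl, sg_two, show 1 - 1 = 0 from rfl, c_0, c_1]
  norm_num
  ring

theorem c_3 (d : ℝ) : c d 3 = -(d * (d ^ 2 - 9 * d + 2)) / 6 := by
  rw [c, Fin.sum_univ_succ, Fin.sum_univ_succ, Fin.sum_univ_succ]
  simp only [Fin.sum_univ_zero, Fin.val_zero, Fin.val_succ, zero_add, Nat.sub_zero, sg_one,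
    show 1 + 1 = 2 from rfl, show 2 + 1 = 3 from rfl, sg_two, sg_three, show 2 - 1 = 1 from rfl,
    show 2 - 2 = 0 from rfl, c_0, c_1, c_2]
  norm_num
  ring

theorem c_4 (d : ℝ) : c d 4 = d * (d ^ 3 - 18 * d ^ 2 + 35 * d - 42) / 24 := by
  rw [c, Fin.sum_univ_succ, Fin.sum_univ_succ, Fin.sum_univ_succ, Fin.sum_univ_succ]
  simp only [Fin.sum_univ_zero, Fin.val_zero, Fin.val_succ, zero_add, Nat.sub_zero, sg_one,
    show 1 + 1 = 2 from rfl, show 2 + 1 = 3 from rfl, show 3 + 1 = 4 from rfl, sg_two, sg_three,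
    sg_four, show 3 - 1 = 2 from rfl, show 3 - 2 = 1 from rfl, show 3 - 3 = 0 from rfl,
    c_0, c_1, c_2, c_3]
  norm_num
  ring

theorem c_5 (d : ℝ) : c d 5 = -(d * (d - 1) * (d - 2) * (d - 3) * (d - 24)) / 120 := by
  rw [c, Fin.sum_univ_succ, Fin.sum_univ_succ, Fin.sum_univ_succ, Fin.sum_univ_succ,
    Fin.sum_univ_succ]
  simp only [Fin.sum_univ_zero, Fin.val_zero, Fin.val_succ, zero_add, Nat.sub_zero, sg_one,
    show 1 + 1 = 2 from rfl, show 2 + 1 = 3 from rfl, show 3 + 1 = 4 from rfl,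
    show 4 + 1 = 5 from rfl, sg_two, sg_three, sg_four, sg_five, show 4 - 1 = 3 from rfl,
    show 4 - 2 = 2 from rfl, show 4 - 3 = 1 from rfl, show 4 - 4 = 0 from rfl,
    c_0, c_1, c_2, c_3, c_4]
  norm_num
  ring

theorem sqrt73_lt : √73 < 8.54402 := by
  rw [Real.sqrt_lt' (by norm_num)]; norm_num

theorem lt_sqrt73 : 8.544 < √73 := by
  rw [Real.lt_sqrt (by norm_num)]; norm_num

/-- the quadratic factor of `c d 3` -/
theorem quad_factor (d : ℝ) :
    d ^ 2 - 9 * d + 2 = (d - (9 - √73) / 2) * (d - (9 + √73) / 2) := by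
  have h73 : √73 * √73 = 73 := Real.mul_self_sqrt (by norm_num)
  linear_combination (1 / 4) * h73

theorem quad_nonpos {d : ℝ} (h1 : (9 - √73) / 2 ≤ d) (h2 : d ≤ (9 + √73) / 2) :
    d ^ 2 - 9 * d + 2 ≤ 0 := by
  rw [quad_factor]
  exact mul_nonpos_of_nonneg_of_nonpos (by linarith) (by linarith)

theorem of_quad_nonpos {d : ℝ} (h : d ^ 2 - 9 * d + 2 ≤ 0) :
    (9 - √73) / 2 ≤ d ∧ d ≤ (9 + √73) / 2 := by
  have h3 := Real.sqrt_nonneg 73
  rw [quad_factor] at h
  constructor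
  · by_contra h1
    push Not at h1
    have := mul_pos_of_neg_of_neg (by linarith : d - (9 - √73) / 2 < 0)
      (by linarith : d - (9 + √73) / 2 < 0)
    linarith
  · by_contra h1
    push Not at h1
    have := mul_pos (by linarith : 0 < d - (9 - √73) / 2)
      (by linarith : 0 < d - (9 + √73) / 2)
    linarith

theorem sg_pos {n : ℕ} (hn : n ≠ 0) : 0 < sg n := by
  unfold sg
  refine Finset.sum_pos' (fun _ _ => Nat.zero_le _) ⟨1, ?_, one_pos⟩
  simp [hn]

/-- for negative `d` all the coefficients are positive -/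
theorem c_pos_of_neg {d : ℝ} (hd : d < 0) (n : ℕ) : 0 < c d n := by
  induction n using Nat.strong_induction_on with
  | _ n ih =>
    cases n with
    | zero => rw [c_0]; norm_num
    | succ n =>
      rw [c]
      refine mul_pos (div_pos (by linarith) (by positivity)) (Finset.sum_pos (fun k _ => ?_)
        Finset.univ_nonempty)
      refine mul_pos ?_ (ih _ (by omega))
      exact_mod_cast sg_pos (by omega)

theorem c_zero_succ (n : ℕ) : c 0 (n + 1) = 0 := by
  rw [c]; simp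

end Pool.Agent.KS6_41.BW
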