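import Pool.Agent.KS6_41.BW.Large
import Pool.Agent.KS6_41.BW.Small
import Pool.Agent.KS6_41.BW.G4

/-!
# The complete sign chart
-/

set_option autoImplicit false

namespace Pool.Agent.KS6_41.BW

/-- the strict sign pattern holds for all `n` other than `3` and `5` -/
theorem good_all {d : ℝ} (h1 : (9 - √73) / 2 ≤ d) (h2 : d ≤ (9 + √73) / 2) {n : ℕ} (h3 : n ≠ 3)
    (h5 : n ≠ 5) : Good d n := by
  have s1 := sqrt73_lt
  have s2 := lt_sqrt73
  have hd1 : (0.22799 : ℝ) ≤ d := by linarith
  have hd2 : d ≤ 8.78 := by linarith
  rcases le_total d (13 / 50) with a1 | a1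
  · rcases le_or_gt n 565 with b | b
    · exact fc1 h3 h5 (by linarith) (by linarith) b
    · exact large1 hd1 a1 b
  rcases le_total d (3 / 10) with a2 | a2
  · rcases le_or_gt n 475 with b | b
    · exact fc2 h3 h5 (by linarith) (by linarith) b
    · exact large2 a1 a2 b
  rcases le_total d (2 / 5) with a3 | a3
  · rcases le_or_gt n 400 with b | b
    · exact fc3 h3 h5 (by linarith) (by linarith) b
    · exact large3 a2 a3 b
  rcases le_total d (1 / 2) with a4 | a4
  · rcases le_or_gt n 275 with b | b
    · exact fc4 h3 h5 (by linarith) (by linarith) b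
    · exact large4 a3 a4 b
  rcases le_total d (7 / 10) with a5 | a5
  · rcases le_or_gt n 212 with b | b
    · exact fc5 h3 h5 (by linarith) (by linarith) b
    · exact large5 a4 a5 b
  rcases le_total d 1 with a6 | a6
  · rcases le_or_gt n 145 with b | b
    · exact fc6 h3 h5 (by linarith) (by linarith) b
    · exact large6 a5 a6 b
  rcases le_total d 3.3 with a7 | a7
  · rcases le_or_gt n 120 with b | b
    · exact fc7 h3 h5 (by linarith) (by linarith) b
    rcases le_total d 1.2 with a8 | a8
    · exact large7 a6 a8 b
    rcases le_total d 2 with a9 | a9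
    · exact large8 a8 a9 b
    rcases le_total d 2.7 with a10 | a10
    · exact large9 a9 a10 b
    · exact large12 a10 a7 b
  · rcases le_or_gt n 90 with b | b
    · exact fc8 h3 h5 (by linarith) (by linarith) b
    · exact large11 a7 hd2 b

end Pool.Agent.KS6_41.BW
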